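import Pool.Agent.Q98.HS.Stm

/-! Project HS, job BASE: the space at the beginning. -/

set_option autoImplicit false

namespace Pool.Agent.Q98.HS

open Filter Topology Cardinal BoundedContinuousFunction

/-- the unit vectors of `ℓ_∞` -/
noncomputable def e0 (n : ℕ) : ℕ →ᵇ ℝ :=
  BoundedContinuousFunction.ofNormedAddCommGroupDiscrete (fun k => if k = n then 1 else 0) 1 fun k => by
    split_ifs <;> simp

theorem e0_apply (n k : ℕ) : e0 n k = if k = n then 1 else 0 := rfl

/-- the span of the unit vectors -/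
noncomputable def C0 : Submodule ℝ (ℕ →ᵇ ℝ) := Submodule.span ℝ (Set.range e0)

/-- every finite-dimensional space embeds in `ℓ_∞` -/
theorem embeds (E : Type) [NormedAddCommGroup E] [NormedSpace ℝ E] [FiniteDimensional ℝ E] :
    Nonempty (E →ₗᵢ[ℝ] (ℕ →ᵇ ℝ)) := by
  classical
  have hsep : TopologicalSpace.SeparableSpace E := by
    have : ProperSpace E := FiniteDimensional.proper ℝ E
    infer_instance
  choose φ hφ1 hφ2 using fun k : ℕ => exists_dual_vector'' ℝ (TopologicalSpace.denseSeq E k)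
  have hle : ∀ k (x : E), ‖φ k x‖ ≤ ‖x‖ := fun k x => by
    calc ‖φ k x‖ ≤ ‖φ k‖ * ‖x‖ := (φ k).le_opNorm x
      _ ≤ 1 * ‖x‖ := mul_le_mul_of_nonneg_right (hφ1 k) (norm_nonneg _)
      _ = ‖x‖ := one_mul _
  let F : E → (ℕ →ᵇ ℝ) := fun x =>
    BoundedContinuousFunction.ofNormedAddCommGroupDiscrete (fun k => φ k x) ‖x‖ fun k => hle k x
  have hF : ∀ x k, F x k = φ k x := fun _ _ => rfl
  refine ⟨{ toFun := F, map_add' := ?_, map_smul' := ?_, norm_map' := ?_ }⟩
  · intro x y
    ext k
    exact map_add (φ k) x y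
  · intro a x
    ext k
    exact map_smul (φ k) a x
  · intro x
    show ‖F x‖ = ‖x‖
    refine le_antisymm ((BoundedContinuousFunction.norm_le (norm_nonneg _)).mpr fun k => hle k x) ?_
    refine le_of_forall_pos_le_add fun ε hε => ?_
    obtain ⟨k, hk⟩ := (TopologicalSpace.denseRange_denseSeq E).exists_dist_lt x (half_pos hε)
    rw [dist_eq_norm] at hk
    have e1 : ‖φ k (x - TopologicalSpace.denseSeq E k)‖ ≤ ‖x - TopologicalSpace.denseSeq E k‖ := hle k _
    rw [map_sub, hφ2 k] at e1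
    have e2 : ‖x‖ ≤ ‖x - TopologicalSpace.denseSeq E k‖ + ‖TopologicalSpace.denseSeq E k‖ := by
      have := norm_add_le (x - TopologicalSpace.denseSeq E k) (TopologicalSpace.denseSeq E k)
      rwa [sub_add_cancel] at this
    have e3 := (F x).norm_coe_le_norm k
    rw [hF] at e3
    rw [Real.norm_eq_abs] at e1 e3
    have e4 := (abs_le.mp e1).1
    have e5 := le_abs_self (φ k x)
    simp only [RCLike.ofReal_real_eq_id, id_eq] at e4
    linarith

theorem c0_lim : ∀ y ∈ C0.topologicalClosure, Tendsto (fun n => y n) atTop (𝓝 0) := by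
  have hS : ∀ y ∈ C0, Tendsto (fun n => y n) atTop (𝓝 0) := by
    intro y hy
    unfold C0 at hy
    induction hy using Submodule.span_induction with
    | mem y hy =>
      obtain ⟨m, rfl⟩ := hy
      refine tendsto_const_nhds.congr' ?_
      filter_upwards [eventually_gt_atTop m] with n hn
      rw [e0_apply, if_neg (by omega)]
    | zero => exact tendsto_const_nhds
    | add y z _ _ hy hz =>
      have := hy.add hz
      rw [add_zero] at this
      exact this
    | smul a y _ hy =>
      have := hy.const_mul a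
      rw [mul_zero] at this
      exact this
  intro y hy
  rw [Metric.tendsto_atTop]
  intro ε hε
  obtain ⟨z, hz, hyz⟩ := Metric.mem_closure_iff.mp hy (ε / 2) (half_pos hε)
  obtain ⟨N, hN⟩ := Metric.tendsto_atTop.mp (hS z hz) (ε / 2) (half_pos hε)
  refine ⟨N, fun n hn => ?_⟩
  have e1 := hN n hn
  rw [Real.dist_eq, sub_zero] at e1
  rw [Real.dist_eq, sub_zero]
  have e2 : |y n - z n| ≤ dist y z := by
    rw [← Real.dist_eq]
    exact BoundedContinuousFunction.dist_coe_le_dist n
  have e3 : |y n| ≤ |y n - z n| + |z n| := by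
    have := abs_add_le (y n - z n) (z n)
    rwa [sub_add_cancel] at this
  linarith

theorem card_linf : #(ℕ →ᵇ ℝ) ≤ 𝔠 := by
  have h1 : Function.Injective (fun y : ℕ →ᵇ ℝ => (y : ℕ → ℝ)) := DFunLike.coe_injective
  calc #(ℕ →ᵇ ℝ) ≤ #(ℕ → ℝ) := mk_le_of_injective h1
    _ = 𝔠 := by
      have h2 : #(ℕ → ℝ) = #ℝ ^ ℵ₀ := by simp
      rw [h2, mk_real, continuum_power_aleph0]

/-- the big separable space -/
noncomputable def T0 : Submodule ℝ (ℕ →ᵇ ℝ) :=
  (Submodule.span ℝ (Set.range e0 ∪ {BoundedContinuousFunction.const ℕ 1})).topologicalClosure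

theorem C0_le : C0.topologicalClosure ≤ T0 :=
  Submodule.topologicalClosure_mono (Submodule.span_mono Set.subset_union_left)

theorem e0_mem (n : ℕ) : e0 n ∈ C0.topologicalClosure :=
  C0.le_topologicalClosure (Submodule.subset_span ⟨n, rfl⟩)

theorem tspace : ∃ (T : Type) (_ : NormedAddCommGroup T) (_ : NormedSpace ℝ T) (_ : CompleteSpace T)
    (_ : TopologicalSpace.SeparableSpace T) (ι : T →ₗᵢ[ℝ] (ℕ →ᵇ ℝ)),
    (∀ n, ∃ x, ι x = e0 n) ∧ ∃ x, ι x = BoundedContinuousFunction.const ℕ 1 := by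
  have hTs : TopologicalSpace.SeparableSpace T0 := by
    have h1 : (Set.range e0 ∪ {BoundedContinuousFunction.const ℕ 1} :
        Set (ℕ →ᵇ ℝ)).Countable := (Set.countable_range e0).union (Set.countable_singleton _)
    have h2 := (h1.isSeparable.span (R := ℝ)).closure
    exact h2.separableSpace
  have hTc : CompleteSpace T0 := (Submodule.isClosed_topologicalClosure _).completeSpace_coe
  exact ⟨T0, inferInstance, inferInstance, hTc, hTs, T0.subtypeₗᵢ,
    fun n => ⟨⟨e0 n, C0_le (e0_mem n)⟩, rfl⟩,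
    ⟨⟨BoundedContinuousFunction.const ℕ 1,
      Submodule.le_topologicalClosure _ (Submodule.subset_span (Or.inr rfl))⟩, rfl⟩⟩

theorem base : S_BASE := by
  classical
  obtain ⟨T, hT1, hT2, hTc, hTs, ι, hι, y, hy⟩ := tspace
  choose e he using hι
  let C : Submodule ℝ (ℕ →ᵇ ℝ) := C0.topologicalClosure
  let f : ℕ → StrongDual ℝ ((ℕ →ᵇ ℝ) × C) := fun n =>
    ((BoundedContinuousFunction.evalCLM ℝ n).comp C.subtypeL).comp
      (ContinuousLinearMap.snd ℝ (ℕ →ᵇ ℝ) C)
  have hf : ∀ n b, f n b = (b.2 : ℕ →ᵇ ℝ) n := fun _ _ => rfl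
  let S : Submodule ℝ T := C.comap ι.toLinearMap
  let j : S →ₗᵢ[ℝ] ((ℕ →ᵇ ℝ) × C) :=
    { toFun := fun s => (0, ⟨ι s.1, s.2⟩)
      map_add' := fun s s' => by
        refine Prod.ext ?_ ?_
        · simp
        · exact Subtype.ext (map_add ι _ _)
      map_smul' := fun a s => by
        refine Prod.ext ?_ ?_
        · simp
        · exact Subtype.ext (map_smul ι _ _)
      norm_map' := fun s => by
        show max ‖(0 : ℕ →ᵇ ℝ)‖ ‖(ι s.1 : ℕ →ᵇ ℝ)‖ = ‖s.1‖
        rw [norm_zero, ι.norm_map]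
        exact max_eq_right (norm_nonneg _) }
  refine ⟨(ℕ →ᵇ ℝ) × C, inferInstance, inferInstance, f, ⟨?_, ?_⟩, ?_, ?_, T, hT1, hT2, hTc, hTs, S,
    j, y, fun n => ⟨e n, by
      show ι (e n) ∈ C
      rw [he]
      exact e0_mem n⟩, ?_, ?_, ?_⟩
  · intro n
    refine ContinuousLinearMap.opNorm_le_bound _ zero_le_one fun b => ?_
    rw [one_mul, hf]
    exact ((b.2 : ℕ →ᵇ ℝ).norm_coe_le_norm n).trans (le_max_right _ _)
  · intro b
    exact c0_lim _ b.2.2
  · rw [mk_prod, lift_id, lift_id]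
    calc #(ℕ →ᵇ ℝ) * #C ≤ 𝔠 * 𝔠 := mul_le_mul' card_linf ((mk_subtype_le _).trans card_linf)
      _ = 𝔠 := continuum_mul_self
  · intro E _ _ _
    obtain ⟨i⟩ := embeds E
    exact ⟨{ toFun := fun x => (i x, 0)
             map_add' := fun x y => by simp
             map_smul' := fun a x => by simp
             norm_map' := fun x => by
              show max ‖i x‖ ‖(0 : ℕ →ᵇ ℝ)‖ = ‖x‖
              rw [norm_zero, i.norm_map]
              exact max_eq_left (norm_nonneg _) }⟩
  · exact (Submodule.isClosed_topologicalClosure C0).preimage ι.continuous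
  · intro n
    have h1 : y - (2 : ℝ) • e n = y - (2 : ℝ) • e n := rfl
    show ‖y - (2 : ℝ) • e n‖ ≤ 1
    rw [← ι.norm_map, map_sub, map_smul, he, hy]
    refine (BoundedContinuousFunction.norm_le zero_le_one).mpr fun k => ?_
    rw [BoundedContinuousFunction.sub_apply, BoundedContinuousFunction.smul_apply, e0_apply,
      BoundedContinuousFunction.const_apply]
    split_ifs
    · norm_num
    · norm_num
  · intro n
    rw [hf]
    show ι (e n) n = 1
    rw [he, e0_apply, if_pos rfl]

end Pool.Agent.Q98.HS
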