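import Pool.Agent.Q98.HS.Stm

/-! Project HS, job CHN: a chain of length `ω₁`. -/

set_option autoImplicit false

namespace Pool.Agent.Q98.HS

open Cardinal

theorem chn : S_CHN := by
  classical
  intro P le R hrefl htrans hle hR hub hnext p0
  -- the choice function
  have hg : ∀ c : Set P, ∃ q, c.Countable → c.Nonempty →
      (∀ p ∈ c, ∀ q ∈ c, le p q ∨ le q p) → ∀ p ∈ c, R p q := by
    intro c
    by_cases h : c.Countable ∧ c.Nonempty ∧ ∀ p ∈ c, ∀ q ∈ c, le p q ∨ le q p
    · obtain ⟨h1, h2, h3⟩ := h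
      obtain ⟨b, hb⟩ := hub c h1 h2 h3
      obtain ⟨q, hq⟩ := hnext b
      exact ⟨q, fun _ _ _ p hp => hle p b q (hb p hp) hq⟩
    · exact ⟨p0, fun h1 h2 h3 => absurd ⟨h1, h2, h3⟩ h⟩
  choose g hg using hg
  let W : Type := (aleph 1).ord.ToType
  have hwf : WellFounded ((· < ·) : W → W → Prop) := wellFounded_lt
  let F : W → P := hwf.fix fun a ih => g (insert p0 {q | ∃ b, ∃ h : b < a, ih b h = q})
  have hF : ∀ a, F a = g (insert p0 {q | ∃ b, ∃ _ : b < a, F b = q}) := by
    intro a
    exact hwf.fix_eq _ a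
  have hcount : ∀ a : W, (Set.Iio a).Countable := by
    intro a
    have h1 := mk_Iio_toType_ord_lt a
    rw [← le_aleph0_iff_set_countable, ← Order.lt_succ_iff, succ_aleph0]
    exact h1
  have key : ∀ a : W, (∀ b < a, R (F b) (F a)) ∧ R p0 (F a) := by
    intro a
    induction a using hwf.induction with
    | _ a ih =>
      have h1 : (insert p0 {q | ∃ b, ∃ _ : b < a, F b = q} : Set P).Countable := by
        refine Set.Countable.insert _ ?_
        have h2 : {q | ∃ b, ∃ _ : b < a, F b = q} = F '' Set.Iio a := by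
          ext q
          simp
        rw [h2]
        exact (hcount a).image F
      have h3 : ∀ p ∈ (insert p0 {q | ∃ b, ∃ _ : b < a, F b = q} : Set P),
          ∀ q ∈ (insert p0 {q | ∃ b, ∃ _ : b < a, F b = q} : Set P), le p q ∨ le q p := by
        rintro p (rfl | ⟨b, hb, rfl⟩) q (rfl | ⟨b', hb', rfl⟩)
        · exact Or.inl (hrefl _)
        · exact Or.inl (hR _ _ (ih b' hb').2)
        · exact Or.inr (hR _ _ (ih b hb).2)
        · rcases lt_trichotomy b b' with h | h | h
          · exact Or.inl (hR _ _ ((ih b' hb').1 b h))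
          · rw [h]
            exact Or.inl (hrefl _)
          · exact Or.inr (hR _ _ ((ih b hb).1 b' h))
      have h4 := hg _ h1 (Set.insert_nonempty _ _) h3
      rw [← hF a] at h4
      exact ⟨fun b hb => h4 _ (Or.inr ⟨b, hb, rfl⟩), h4 _ (Or.inl rfl)⟩
  refine ⟨W, inferInstance, F, fun a b hab => (key b).1 a hab, fun a => (key a).2, ?_⟩
  intro c hc
  by_contra hcon
  push Not at hcon
  have h1 : (Set.univ : Set W) ⊆ ⋃ a ∈ c, Set.Iic a := by
    intro b _
    obtain ⟨a, ha, hb⟩ := hcon b
    exact Set.mem_biUnion ha hb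
  have h2 : (⋃ a ∈ c, Set.Iic a).Countable := by
    refine hc.biUnion fun a _ => ?_
    rw [← Set.Iio_insert]
    exact (hcount a).insert a
  have h3 := le_aleph0_iff_set_countable.mpr (h2.mono h1)
  rw [mk_univ, mk_ord_toType] at h3
  have h4 := aleph0_lt_aleph_one
  exact absurd h3 (not_le.mpr h4)

end Pool.Agent.Q98.HS
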