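import Mathlib

/-!
Project HS (helper98, MP_c85420_an): a strong Gurarii space, homogeneous for finite-dimensional
subspaces, which is not of universal disposition for separable spaces. Definitions.
-/

set_option autoImplicit false

namespace Pool.Agent.Q98.HS

open Filter Topology

/-- a sequence of functionals of norm at most one which tends to zero pointwise -/
def Null {X : Type} [NormedAddCommGroup X] [NormedSpace ℝ X] (f : ℕ → StrongDual ℝ X) : Prop :=
  (∀ n, ‖f n‖ ≤ 1) ∧ ∀ x, Tendsto (fun n => f n x) atTop (𝓝 0)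

/-- a map of the unit ball of the dual space into itself which respects null sequences -/
def Good {X : Type} [NormedAddCommGroup X] [NormedSpace ℝ X]
    (R : StrongDual ℝ X → StrongDual ℝ X) : Prop :=
  (∀ ψ, ‖ψ‖ ≤ 1 → ‖R ψ‖ ≤ 1) ∧ ∀ f, Null f → Null (fun n => R (f n))

/-- labels: pairs of finite sequences of vectors -/
abbrev Lb (U : Type) : Type := (n : ℕ) × ((Fin n → U) × (Fin n → U))

/-- A stage: a subspace `V` of the real vector space `U` with a norm `N`, linear functionals `f n` of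
norm at most one which tend to zero pointwise, and for every label `g ∈ G` a surjective linear
isometry `ρ g` of `V` which maps the first sequence of the label to the second one. (All functions are
considered on `V` only.) -/
structure St (U : Type) [AddCommGroup U] [Module ℝ U] where
  V : Submodule ℝ U
  N : U → ℝ
  f : ℕ → U → ℝ
  G : Set (Lb U)
  ρ : Lb U → U → U
  N_zero : ∀ x ∈ V, N x = 0 → x = 0
  N_add : ∀ x ∈ V, ∀ y ∈ V, N (x + y) ≤ N x + N y
  N_smul : ∀ a : ℝ, ∀ x ∈ V, N (a • x) = |a| * N x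
  f_add : ∀ n, ∀ x ∈ V, ∀ y ∈ V, f n (x + y) = f n x + f n y
  f_smul : ∀ n, ∀ a : ℝ, ∀ x ∈ V, f n (a • x) = a * f n x
  f_le : ∀ n, ∀ x ∈ V, |f n x| ≤ N x
  f_lim : ∀ x ∈ V, Tendsto (fun n => f n x) atTop (𝓝 0)
  ρ_mem : ∀ g ∈ G, ∀ x ∈ V, ρ g x ∈ V
  ρ_add : ∀ g ∈ G, ∀ x ∈ V, ∀ y ∈ V, ρ g (x + y) = ρ g x + ρ g y
  ρ_smul : ∀ g ∈ G, ∀ a : ℝ, ∀ x ∈ V, ρ g (a • x) = a • ρ g x
  ρ_N : ∀ g ∈ G, ∀ x ∈ V, N (ρ g x) = N x
  ρ_surj : ∀ g ∈ G, ∀ y ∈ V, ∃ x ∈ V, ρ g x = y
  G_V : ∀ g ∈ G, ∀ i, g.2.1 i ∈ V ∧ g.2.2 i ∈ V ∧ ρ g (g.2.1 i) = g.2.2 i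

variable {U : Type} [AddCommGroup U] [Module ℝ U]

/-- `q` extends `p` -/
structure Le (p q : St U) : Prop where
  V : p.V ≤ q.V
  N : ∀ x ∈ p.V, q.N x = p.N x
  f : ∀ n, ∀ x ∈ p.V, q.f n x = p.f n x
  G : p.G ⊆ q.G
  ρ : ∀ g ∈ p.G, ∀ x ∈ p.V, q.ρ g x = p.ρ g x

theorem Le.refl (p : St U) : Le p p :=
  ⟨le_rfl, fun _ _ => rfl, fun _ _ _ => rfl, subset_rfl, fun _ _ _ _ => rfl⟩

theorem Le.trans {p q r : St U} (h : Le p q) (h' : Le q r) : Le p r :=
  ⟨h.V.trans h'.V, fun x hx => (h'.N x (h.V hx)).trans (h.N x hx),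
    fun n x hx => (h'.f n x (h.V hx)).trans (h.f n x hx), h.G.trans h'.G,
    fun g hg x hx => (h'.ρ g (h.G hg) x (h.V hx)).trans (h.ρ g hg x hx)⟩

/-- every pair of finite sequences of vectors of `p` which generate the same norms is a label
of `q` -/
def Task (p q : St U) : Prop := ∀ (n : ℕ) (c c' : Fin n → U), (∀ i, c i ∈ p.V ∧ c' i ∈ p.V) →
  (∀ a : Fin n → ℝ, p.N (∑ i, a i • c i) = p.N (∑ i, a i • c' i)) →
  (⟨n, c, c'⟩ : Lb U) ∈ q.G

theorem St.N_nonneg (p : St U) {x : U} (hx : x ∈ p.V) : 0 ≤ p.N x := by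
  have h1 := p.N_add x hx (-x) (p.V.neg_mem hx)
  have h2 := p.N_smul (-1) x hx
  have h3 := p.N_smul 0 x hx
  rw [neg_one_smul, abs_neg, abs_one, one_mul] at h2
  rw [zero_smul, abs_zero, zero_mul] at h3
  rw [add_neg_cancel, h2, h3] at h1
  linarith

/-- the normed space of a stage -/
def St.X (p : St U) : Type := p.V

/-- a vector of `V` as an element of the normed space -/
def St.pt (p : St U) (x : U) (hx : x ∈ p.V) : p.X := ⟨x, hx⟩

/-- an element of the normed space as a vector of `U` -/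
def St.val (p : St U) (x : p.X) : U := x.1

noncomputable instance (p : St U) : AddCommGroup p.X := inferInstanceAs (AddCommGroup p.V)
noncomputable instance (p : St U) : Module ℝ p.X := inferInstanceAs (Module ℝ p.V)
noncomputable instance (p : St U) : Norm p.X := ⟨fun x => p.N x.1⟩

theorem St.val_mem (p : St U) (x : p.X) : p.val x ∈ p.V := x.2
theorem St.val_inj (p : St U) {x y : p.X} (h : p.val x = p.val y) : x = y := Subtype.ext h
theorem St.norm_def (p : St U) (x : p.X) : ‖x‖ = p.N (p.val x) := rfl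
theorem St.val_add (p : St U) (x y : p.X) : p.val (x + y) = p.val x + p.val y := rfl
theorem St.val_smul (p : St U) (a : ℝ) (x : p.X) : p.val (a • x) = a • p.val x := rfl
theorem St.val_pt (p : St U) (x : U) (hx : x ∈ p.V) : p.val (p.pt x hx) = x := rfl
theorem St.pt_val (p : St U) (x : p.X) : p.pt (p.val x) (p.val_mem x) = x := rfl

theorem St.core (p : St U) : NormedSpace.Core ℝ p.X where
  norm_nonneg x := p.N_nonneg x.2
  norm_smul a x := by
    rw [Real.norm_eq_abs]
    exact p.N_smul a x.1 x.2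
  norm_triangle x y := p.N_add x.1 x.2 y.1 y.2
  norm_eq_zero_iff x := by
    constructor
    · intro h
      exact Subtype.ext (p.N_zero x.1 x.2 h)
    · intro h
      have h3 := p.N_smul 0 x.1 x.2
      rw [zero_smul, abs_zero, zero_mul] at h3
      rw [h]
      exact h3

noncomputable instance (p : St U) : NormedAddCommGroup p.X := NormedAddCommGroup.ofCore p.core
noncomputable instance (p : St U) : NormedSpace ℝ p.X := NormedSpace.ofCore p.core

/-- the inclusion of `V` as a linear map -/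
def St.valₗ (p : St U) : p.X →ₗ[ℝ] U := p.V.subtype

theorem St.valₗ_apply (p : St U) (x : p.X) : p.valₗ x = p.val x := rfl

/-- the functionals of a stage -/
noncomputable def St.F (p : St U) (n : ℕ) : StrongDual ℝ p.X :=
  LinearMap.mkContinuous
    { toFun := fun x => p.f n (p.val x)
      map_add' := fun x y => p.f_add n _ x.2 _ y.2
      map_smul' := fun a x => p.f_smul n a _ x.2 } 1
    fun x => by rw [one_mul]; exact p.f_le n _ x.2

theorem St.F_apply (p : St U) (n : ℕ) (x : p.X) : p.F n x = p.f n (p.val x) := rfl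

theorem St.null (p : St U) : Null p.F :=
  ⟨fun _ => LinearMap.mkContinuous_norm_le _ zero_le_one _, fun x => p.f_lim _ x.2⟩

open Classical in
/-- the isometries of a stage (the identity for labels which are not in `G`) -/
noncomputable def St.iso (p : St U) (g : Lb U) : p.X ≃ₗᵢ[ℝ] p.X :=
  if hg : g ∈ p.G then
    LinearIsometryEquiv.ofSurjective
      { toFun := fun x => p.pt (p.ρ g (p.val x)) (p.ρ_mem g hg _ x.2)
        map_add' := fun x y => p.val_inj (p.ρ_add g hg _ x.2 _ y.2)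
        map_smul' := fun a x => p.val_inj (p.ρ_smul g hg a _ x.2)
        norm_map' := fun x => p.ρ_N g hg _ x.2 }
      fun y => by
        obtain ⟨x, hx, h⟩ := p.ρ_surj g hg _ y.2
        exact ⟨p.pt x hx, p.val_inj h⟩
  else LinearIsometryEquiv.refl ℝ p.X

theorem St.val_iso (p : St U) {g : Lb U} (hg : g ∈ p.G) (x : p.X) :
    p.val (p.iso g x) = p.ρ g (p.val x) := by
  unfold St.iso
  rw [dif_pos hg]
  rfl

/-- the inclusion of a stage in an extension -/
noncomputable def Le.incl {p q : St U} (h : Le p q) : p.X →ₗᵢ[ℝ] q.X where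
  toFun x := q.pt (p.val x) (h.V x.2)
  map_add' _ _ := rfl
  map_smul' _ _ := rfl
  norm_map' x := h.N _ x.2

theorem Le.val_incl {p q : St U} (h : Le p q) (x : p.X) : q.val (h.incl x) = p.val x := rfl

end Pool.Agent.Q98.HS
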