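import Pool.Agent.Q98.HS.Stm

/-! Project HS, job EMB: room for small extensions. -/

set_option autoImplicit false

namespace Pool.Agent.Q98.HS

open Cardinal

theorem card_le_of_rank (W : Type) [AddCommGroup W] [Module ℝ W] (h : Module.rank ℝ W ≤ 𝔠) :
    #W ≤ 𝔠 := by
  classical
  let b := Module.Free.chooseBasis ℝ W
  have h1 : #(Module.Free.ChooseBasisIndex ℝ W) = Module.rank ℝ W :=
    (Module.Free.rank_eq_card_chooseBasisIndex ℝ W).symm
  have h2 : #W = #(Module.Free.ChooseBasisIndex ℝ W →₀ ℝ) := mk_congr b.repr.toEquiv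
  rw [h2]
  rcases isEmpty_or_nonempty (Module.Free.ChooseBasisIndex ℝ W) with h3 | h3
  · have h4 : Subsingleton (Module.Free.ChooseBasisIndex ℝ W →₀ ℝ) := inferInstance
    exact (le_one_iff_subsingleton.mpr h4).trans (one_le_aleph0.trans aleph0_le_continuum)
  · rw [mk_finsupp_of_infinite', h1, mk_real]
    exact max_le h le_rfl

theorem emb : S_EMB := by
  classical
  intro U _ _ hU V hV Y _ _ hY i hi
  obtain ⟨W, hW⟩ := Submodule.exists_isCompl V
  obtain ⟨C, hC⟩ := Submodule.exists_isCompl (LinearMap.range i)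
  have h1 : 𝔠 < Module.rank ℝ W := by
    by_contra hcon
    have h2 := card_le_of_rank W (not_lt.mp hcon)
    have h3 : #U = #V * #W := by
      rw [mul_def]
      exact mk_congr (Submodule.prodEquivOfIsCompl V W hW).symm.toEquiv
    have h4 : #V * #W ≤ 𝔠 := by
      calc #V * #W ≤ 𝔠 * 𝔠 := mul_le_mul' hV h2
        _ = 𝔠 := continuum_mul_self
    exact absurd (h3 ▸ h4) (not_le.mpr hU)
  have h2 : Module.rank ℝ C ≤ Module.rank ℝ W := by
    refine (rank_le_card ℝ C).trans (le_trans ?_ h1.le)
    exact (mk_subtype_le _).trans hY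
  obtain ⟨k, hk⟩ := rank_le_iff_exists_linearMap.mp h2
  have hi' : LinearMap.ker i = ⊥ := LinearMap.ker_eq_bot.mpr hi
  let ie : V ≃ₗ[ℝ] LinearMap.range i := LinearEquiv.ofInjective i hi
  let pe := Submodule.prodEquivOfIsCompl (LinearMap.range i) C hC
  let we := Submodule.prodEquivOfIsCompl V W hW
  let m : (LinearMap.range i × C) →ₗ[ℝ] (V × W) := ie.symm.toLinearMap.prodMap k
  refine ⟨we.toLinearMap ∘ₗ m ∘ₗ pe.symm.toLinearMap, ?_, ?_⟩
  · have hm : Function.Injective m := by
      intro x y hxy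
      have e1 := congrArg Prod.fst hxy
      have e2 := congrArg Prod.snd hxy
      exact Prod.ext (ie.symm.injective e1) (hk e2)
    intro x y hxy
    exact pe.symm.injective (hm (we.injective hxy))
  · intro x
    have e1 : pe.symm (i x) = (ie x, 0) := by
      rw [LinearEquiv.symm_apply_eq]
      simp [pe, ie]
    show we (m (pe.symm (i x))) = x
    rw [e1]
    simp [m, we]

end Pool.Agent.Q98.HS
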