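import Pool.Agent.Q98.HS.Stm

/-! Project HS, JOB EXT. -/

set_option autoImplicit false

namespace Pool.Agent.Q98.HS

open Filter Topology

theorem ext : S_EXT := by
  classical
  intro X _ _ I D R hR hD
  let W : StrongDual ℝ X → List (I × Bool) → StrongDual ℝ X := fun ψ L =>
    L.foldr (fun s φ => R s.1 s.2 φ) ψ
  have hW : ∀ ψ s L, W ψ (s :: L) = R s.1 s.2 (W ψ L) := fun _ _ _ => rfl
  have hW0 : ∀ ψ, W ψ [] = ψ := fun _ => rfl
  have hg : ∀ L, Good (fun ψ => W ψ L) := by
    intro L
    induction L with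
    | nil => exact ⟨fun ψ h => h, fun f h => h⟩
    | cons s L ih =>
      exact ⟨fun ψ h => (hR s.1 s.2).1 _ (ih.1 ψ h), fun f h => (hR s.1 s.2).2 _ (ih.2 f h)⟩
  refine ⟨fun ψ g => W ψ g.toWord, fun ψ => ?_, fun g => hg g.toWord, ?_⟩
  · show W ψ (1 : FreeGroup I).toWord = ψ
    rw [FreeGroup.toWord_one, hW0]
  · intro ψ u g e e' h
    show W ψ (FreeGroup.of u * g).toWord e = W ψ g.toWord e'
    rw [FreeGroup.toWord_mul, FreeGroup.toWord_of, List.singleton_append, FreeGroup.reduce.cons,
      FreeGroup.reduce_toWord]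
    cases hL : g.toWord with
    | nil =>
      show W ψ [(u, true)] e = W ψ [] e'
      rw [hW, hW0]
      exact (hD u e e' h ψ).1
    | cons s L =>
      show W ψ (if (u, true).1 = s.1 ∧ (u, true).2 = !s.2 then L else (u, true) :: s :: L) e =
        W ψ (s :: L) e'
      by_cases hs : (u, true).1 = s.1 ∧ (u, true).2 = !s.2
      · rw [if_pos hs]
        obtain ⟨h1, h2⟩ := hs
        have h3 : s = (u, false) := by
          rcases s with ⟨v, b⟩
          simp only at h1 h2
          rw [h1]
          cases b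
          · rfl
          · simp at h2
        rw [h3, hW]
        exact ((hD u e e' h (W ψ L)).2).symm
      · rw [if_neg hs, hW]
        exact (hD u e e' h (W ψ (s :: L))).1

end Pool.Agent.Q98.HS
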