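import Pool.Agent.Q98.HS.Stm

/-! Project HS, JOB FIN. -/

set_option autoImplicit false

namespace Pool.Agent.Q98.HS

open Filter Topology Cardinal

section lemmas

variable {U : Type} [AddCommGroup U] [Module ℝ U]

theorem Task.anti {p q r : St U} (h : Le p q) (ht : Task q r) : Task p r := by
  intro n c c' h1 h2
  have h3 : ∀ (c : Fin n → U), (∀ i, c i ∈ p.V) → ∀ a : Fin n → ℝ,
      q.N (∑ i, a i • c i) = p.N (∑ i, a i • c i) :=
    fun c hc a => h.N _ (p.V.sum_mem fun i _ => p.V.smul_mem _ (hc i))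
  refine ht n c c' (fun i => ⟨h.V (h1 i).1, h.V (h1 i).2⟩) fun a => ?_
  rw [h3 c (fun i => (h1 i).1) a, h3 c' (fun i => (h1 i).2) a]
  exact h2 a

/-- upper bounds of countable chains -/
theorem exists_ub (hU : S_UNI) (c : Set {p : St U // #p.V ≤ 𝔠}) (hc : c.Countable)
    (hne : c.Nonempty) (hch : ∀ p ∈ c, ∀ q ∈ c, Le p.1 q.1 ∨ Le q.1 p.1) :
    ∃ b : {p : St U // #p.V ≤ 𝔠}, ∀ p ∈ c, Le p.1 b.1 := by
  classical
  obtain ⟨a, ha⟩ := hc.exists_eq_range hne
  have hac : ∀ n, a n ∈ c := fun n => ha ▸ ⟨n, rfl⟩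
  let m : ℕ → c := fun n => Nat.rec ⟨a 0, hac 0⟩
    (fun k x => if Le x.1.1 (a (k + 1)).1 then ⟨a (k + 1), hac (k + 1)⟩ else x) n
  have hm : ∀ n, m (n + 1) = if Le (m n).1.1 (a (n + 1)).1 then ⟨a (n + 1), hac (n + 1)⟩ else m n :=
    fun n => rfl
  have hmono : ∀ n, Le (m n).1.1 (m (n + 1)).1.1 := by
    intro n
    rw [hm]
    split_ifs with h
    · exact h
    · exact Le.refl _
  have ham : ∀ n, Le (a n).1 (m n).1.1 := by
    intro n
    cases n with
    | zero => exact Le.refl _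
    | succ n =>
      rw [hm]
      split_ifs with h
      · exact Le.refl _
      · exact (hch _ (m n).2 _ (hac (n + 1))).resolve_left h
  have hmono' : ∀ i j, i ≤ j → Le (m i).1.1 (m j).1.1 := by
    intro i j hij
    induction j, hij using Nat.le_induction with
    | base => exact Le.refl _
    | succ j _ ih => exact ih.trans (hmono j)
  obtain ⟨q, hq1, hq2, -⟩ := hU U ℕ (fun n => (m n).1.1) hmono'
  refine ⟨⟨q, ?_⟩, ?_⟩
  · have h1 : (q.V : Set U) = ⋃ n, ((m n).1.1.V : Set U) := by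
      ext x
      rw [Set.mem_iUnion]
      exact hq1 x
    have h2 : #(q.V : Set U) ≤ 𝔠 := by
      rw [h1]
      refine (mk_iUnion_le _).trans ?_
      rw [mk_nat]
      calc ℵ₀ * (⨆ n, #((m n).1.1.V : Set U)) ≤ ℵ₀ * 𝔠 :=
            mul_le_mul' le_rfl (ciSup_le' fun n => (m n).1.2)
        _ = 𝔠 := aleph0_mul_continuum
    exact h2
  · intro p hp
    rw [ha] at hp
    obtain ⟨n, rfl⟩ := hp
    exact (ham n).trans (hq2 n)

end lemmas

theorem fin (hS : S_STEP) (hU : S_UNI) (hC : S_CHN) (hB : S_BASE) (hM : S_EMB) (hK : S_MK) :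
    S_FIN := by
  classical
  obtain ⟨B, i1, i2, f, hf, hBc, hBE, T, i3, i4, i5, i6, S, j, y, e, hScl, hye, hfe⟩ := hB
  let U : Type := Set ℝ →₀ ℝ
  have hUc : 𝔠 < #U := by
    have h1 : #(Set ℝ) ≤ #U := mk_le_of_injective (f := fun s => Finsupp.single s (1 : ℝ)) (by
      intro s t hst
      exact Finsupp.single_left_injective one_ne_zero hst)
    refine lt_of_lt_of_le ?_ h1
    rw [mk_set, mk_real]
    exact cantor _
  -- the first stage
  obtain ⟨e0, he0, -⟩ := hM U hUc ⊥ (by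
    refine le_trans (mk_le_one_iff_set_subsingleton.mpr ?_) (one_le_aleph0.trans aleph0_le_continuum)
    exact Set.subsingleton_singleton) B hBc 0 (fun x y _ => Subsingleton.elim x y)
  obtain ⟨p0, hp1, hp2, hp3, -, -, -⟩ := hK U B e0 he0 f hf ∅
    (fun _ => LinearIsometryEquiv.refl ℝ B) (fun g hg => absurd hg (Set.notMem_empty g))
  have hp0 : #p0.V ≤ 𝔠 := by
    have h1 : #p0.V ≤ #B := by
      rw [hp1]
      exact mk_range_le
    exact h1.trans hBc
  obtain ⟨W, iW, F, hF1, hF2, hF3⟩ := hC {p : St U // #p.V ≤ 𝔠} (fun p q => Le p.1 q.1)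
    (fun p q => Le p.1 q.1 ∧ CompleteSpace q.1.X ∧ Task p.1 q.1) (fun p => Le.refl _)
    (fun p q r => Le.trans) (fun p q r h h' => ⟨h.trans h'.1, h'.2.1, Task.anti h h'.2.2⟩)
    (fun p q h => h.1) (exists_ub hU) (by
      rintro ⟨p, hp⟩
      obtain ⟨q, h1, h2, h3, h4⟩ := hS U hUc p hp
      exact ⟨⟨q, h1⟩, h2, h3, h4⟩) ⟨p0, hp0⟩
  obtain ⟨w0, -⟩ := hF3 ∅ Set.countable_empty
  have : Nonempty W := ⟨w0⟩
  have hmono : ∀ a b, a ≤ b → Le (F a).1 (F b).1 := by
    intro a b hab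
    rcases hab.lt_or_eq with h | h
    · exact (hF1 a b h).1
    · rw [h]
      exact Le.refl _
  obtain ⟨q, hq1, hq2, hq3⟩ := hU U W (fun a => (F a).1) hmono
  -- the embedding of the first space
  have hp0q : Le p0 q := (hF2 w0).1.trans (hq2 w0)
  have hmem0 : ∀ b, e0 b ∈ q.V := fun b => hp0q.V (by rw [hp1]; exact ⟨b, rfl⟩)
  let jB : B →ₗᵢ[ℝ] q.X :=
    { toFun := fun b => q.pt (e0 b) (hmem0 b)
      map_add' := fun a b => q.val_inj (by rw [q.val_add, q.val_pt, q.val_pt, q.val_pt, map_add])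
      map_smul' := fun a b => q.val_inj (by
        rw [RingHom.id_apply, q.val_smul, q.val_pt, q.val_pt, map_smul])
      norm_map' := fun b => by
        show q.N (e0 b) = ‖b‖
        rw [hp0q.N _ (by rw [hp1]; exact ⟨b, rfl⟩), hp2] }
  have hjB : ∀ n b, q.F n (jB b) = f n b := by
    intro n b
    show q.f n (e0 b) = f n b
    rw [hp0q.f n _ (by rw [hp1]; exact ⟨b, rfl⟩), hp3]
  refine ⟨U, inferInstance, inferInstance, q, ?_, ?_, ?_, T, i3, i4, i5, i6, S, jB.comp j, hScl, ?_⟩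
  · -- completeness
    refine Metric.complete_of_cauchySeq_tendsto fun u hu => ?_
    choose a ha using fun n => (hq1 _).mp (q.val_mem (u n))
    obtain ⟨b, hb⟩ := hF3 (Set.range a) (Set.countable_range a)
    have hmem : ∀ n, q.val (u n) ∈ (F b).1.V := fun n => (hmono _ _ (hb _ ⟨n, rfl⟩).le).V (ha n)
    let v : ℕ → (F b).1.X := fun n => (F b).1.pt _ (hmem n)
    have hv : ∀ n, (hq2 b).incl (v n) = u n := fun n => q.val_inj rfl
    have hvc : CauchySeq v := by
      rw [Metric.cauchySeq_iff] at hu ⊢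
      intro ε hε
      obtain ⟨N, hN⟩ := hu ε hε
      refine ⟨N, fun m hm n hn => ?_⟩
      have h1 := hN m hm n hn
      rw [← hv, ← hv, (hq2 b).incl.isometry.dist_eq] at h1
      exact h1
    have : CompleteSpace (F b).1.X := (hF2 b).2.1
    obtain ⟨x, hx⟩ := cauchySeq_tendsto_of_complete hvc
    refine ⟨(hq2 b).incl x, ?_⟩
    have h2 := ((hq2 b).incl.continuous.tendsto x).comp hx
    refine h2.congr fun n => hv n
  · -- homogeneity
    intro n c c' hcc
    choose a ha using fun i => (hq1 _).mp (q.val_mem (c i))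
    choose a' ha' using fun i => (hq1 _).mp (q.val_mem (c' i))
    obtain ⟨b, hb⟩ := hF3 (Set.range a ∪ Set.range a')
      ((Set.countable_range a).union (Set.countable_range a'))
    obtain ⟨b', hb'⟩ := hF3 {b} (Set.countable_singleton b)
    have hbb := hb' b rfl
    have h1 : ∀ i, q.val (c i) ∈ (F b).1.V := fun i =>
      (hmono _ _ (hb _ (Or.inl ⟨i, rfl⟩)).le).V (ha i)
    have h1' : ∀ i, q.val (c' i) ∈ (F b).1.V := fun i =>
      (hmono _ _ (hb _ (Or.inr ⟨i, rfl⟩)).le).V (ha' i)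
    have h2 := (hF1 b b' hbb).2.2 n (fun i => q.val (c i)) (fun i => q.val (c' i))
      (fun i => ⟨h1 i, h1' i⟩) (by
        intro x
        have h3 : ∀ c : Fin n → q.X, (∀ i, q.val (c i) ∈ (F b).1.V) →
            (F b).1.N (∑ i, x i • q.val (c i)) = ‖∑ i, x i • c i‖ := by
          intro c hc
          rw [← (hq2 b).N _ ((F b).1.V.sum_mem fun i _ => (F b).1.V.smul_mem _ (hc i)),
            q.norm_def, ← q.valₗ_apply, map_sum]
          simp only [map_smul]
          rfl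
        rw [h3 c h1, h3 c' h1']
        exact hcc x)
    have h4 : (⟨n, fun i => q.val (c i), fun i => q.val (c' i)⟩ : Lb U) ∈ q.G := (hq2 b').G h2
    refine ⟨q.iso ⟨n, fun i => q.val (c i), fun i => q.val (c' i)⟩, fun i => q.val_inj ?_⟩
    rw [q.val_iso h4]
    exact (q.G_V _ h4 i).2.2
  · intro E _ _ _
    obtain ⟨k⟩ := hBE E
    exact ⟨jB.comp k⟩
  · rintro ⟨g, hg⟩
    have h1 : ∀ n, 1 ≤ q.F n (g y) := by
      intro n
      have h2 : q.F n (g (y - (2 : ℝ) • (e n : T))) = q.F n (g y) - 2 := by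
        rw [map_sub, map_smul, map_sub, map_smul, hg (e n)]
        have h3 : q.F n ((jB.comp j) (e n)) = 1 := by
          rw [← hfe n]
          exact hjB n (j (e n))
        rw [h3, smul_eq_mul, mul_one]
      have h4 : ‖q.F n (g (y - (2 : ℝ) • (e n : T)))‖ ≤ 1 := by
        refine ((q.F n).le_opNorm _).trans ?_
        rw [g.norm_map]
        exact mul_le_one₀ (q.null.1 n) (norm_nonneg _) (hye n)
      rw [h2, Real.norm_eq_abs, abs_le] at h4
      linarith [h4.1]
    have h5 := q.null.2 (g y)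
    have h6 := ge_of_tendsto' h5 h1
    norm_num at h6

end Pool.Agent.Q98.HS
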