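import Pool.Agent.Q98.HS.Stm

/-! Project HS, job HNN: the extension of the space. -/

set_option autoImplicit false

namespace Pool.Agent.Q98.HS

open Filter Topology Cardinal BoundedContinuousFunction

/-- the closure of a small set is small -/
theorem card_closure_le {M : Type} [MetricSpace M] (S : Set M) (h : #S ≤ 𝔠) :
    #(closure S : Set M) ≤ 𝔠 := by
  classical
  have h1 : ∀ y : closure S, ∃ s : ℕ → S, Tendsto (fun n => (s n : M)) atTop (𝓝 (y : M)) := by
    intro y
    obtain ⟨s, hs, hy⟩ := mem_closure_iff_seq_limit.mp y.2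
    exact ⟨fun n => ⟨s n, hs n⟩, hy⟩
  choose s hs using h1
  have h2 : Function.Injective s := by
    intro y y' hyy
    have h3 := hs y
    rw [hyy] at h3
    exact Subtype.ext (tendsto_nhds_unique h3 (hs y'))
  calc #(closure S : Set M) ≤ #(ℕ → S) := mk_le_of_injective h2
    _ = #S ^ ℵ₀ := by simp
    _ ≤ 𝔠 ^ ℵ₀ := power_le_power_right h
    _ = 𝔠 := continuum_power_aleph0

theorem card_span_le {M : Type} [AddCommGroup M] [Module ℝ M] {A : Type} (v : A → M)
    (h : #A ≤ 𝔠) : #(Submodule.span ℝ (Set.range v)) ≤ 𝔠 := by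
  classical
  rcases isEmpty_or_nonempty A with hA | hA
  · rw [Set.range_eq_empty, Submodule.span_empty]
    have h4 : Subsingleton (⊥ : Submodule ℝ M) := inferInstance
    exact (le_one_iff_subsingleton.mpr h4).trans (one_le_aleph0.trans aleph0_le_continuum)
  · have h1 : #(A →₀ ℝ) ≤ 𝔠 := by
      rw [mk_finsupp_of_infinite', mk_real]
      exact max_le h le_rfl
    refine le_trans ?_ h1
    rw [← Finsupp.range_linearCombination]
    exact mk_range_le

theorem card_freeGroup_le (I : Type) (h : #I ≤ 𝔠) : #(FreeGroup I) ≤ 𝔠 := by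
  have h1 : #(I × Bool) ≤ 𝔠 := by
    rw [mk_prod, lift_id, lift_id]
    calc #I * #Bool ≤ 𝔠 * 𝔠 := mul_le_mul' h (by
          rw [mk_bool]
          exact (natCast_lt_aleph0 (n := 2)).le.trans aleph0_le_continuum)
      _ = 𝔠 := continuum_mul_self
  have h2 : Function.Surjective (FreeGroup.mk (α := I)) := Quot.mk_surjective
  exact (mk_le_of_surjective h2).trans ((mk_list_le_max _).trans (max_le aleph0_le_continuum h1))

section

variable {X : Type} [NormedAddCommGroup X] [NormedSpace ℝ X] {I : Type} (D : I → X → X → Prop)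

/-- the compatible families of functionals -/
def TT : Type := {φ : FreeGroup I → StrongDual ℝ X // (∀ g, ‖φ g‖ ≤ 1) ∧
  ∀ u g e e', D u e e' → φ (FreeGroup.of u * g) e = φ g e'}

instance : TopologicalSpace (TT D) := ⊥
instance : DiscreteTopology (TT D) := ⟨rfl⟩

/-- translation -/
def tr (h : FreeGroup I) (φ : TT D) : TT D :=
  ⟨fun g => φ.1 (g * h), fun g => φ.2.1 _, fun u g e e' hD => by
    have := φ.2.2 u (g * h) e e' hD
    rw [← mul_assoc] at this
    exact this⟩

theorem tr_tr (h k : FreeGroup I) (φ : TT D) : tr D h (tr D k φ) = tr D (h * k) φ := by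
  apply Subtype.ext
  funext g
  show φ.1 (g * h * k) = φ.1 (g * (h * k))
  rw [mul_assoc]

theorem tr_one (φ : TT D) : tr D 1 φ = φ := by
  apply Subtype.ext
  funext g
  show φ.1 (g * 1) = φ.1 g
  rw [mul_one]

/-- composition with the translation -/
noncomputable def MM (h : FreeGroup I) : (TT D →ᵇ ℝ) ≃ₗᵢ[ℝ] (TT D →ᵇ ℝ) where
  toFun F := F.compContinuous ⟨tr D h, continuous_of_discreteTopology⟩
  invFun F := F.compContinuous ⟨tr D h⁻¹, continuous_of_discreteTopology⟩
  map_add' _ _ := rfl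
  map_smul' _ _ := rfl
  left_inv F := by
    ext φ
    show F (tr D h (tr D h⁻¹ φ)) = F φ
    rw [tr_tr, mul_inv_cancel, tr_one]
  right_inv F := by
    ext φ
    show F (tr D h⁻¹ (tr D h φ)) = F φ
    rw [tr_tr, inv_mul_cancel, tr_one]
  norm_map' F := by
    refine le_antisymm (norm_compContinuous_le _ _) ?_
    have h1 : (F.compContinuous ⟨tr D h, continuous_of_discreteTopology⟩).compContinuous
        ⟨tr D h⁻¹, continuous_of_discreteTopology⟩ = F := by
      ext φ
      show F (tr D h (tr D h⁻¹ φ)) = F φ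
      rw [tr_tr, mul_inv_cancel, tr_one]
    have h4 := norm_compContinuous_le (F.compContinuous ⟨tr D h, continuous_of_discreteTopology⟩)
        ⟨tr D h⁻¹, continuous_of_discreteTopology⟩
    rw [h1] at h4
    exact h4

theorem MM_apply (h : FreeGroup I) (F : TT D →ᵇ ℝ) (φ : TT D) : MM D h F φ = F (tr D h φ) := rfl

theorem MM_symm_apply (h : FreeGroup I) (F : TT D →ᵇ ℝ) (φ : TT D) :
    (MM D h).symm F φ = F (tr D h⁻¹ φ) := rfl

/-- evaluation -/
noncomputable def ev (g : FreeGroup I) (x : X) : TT D →ᵇ ℝ :=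
  BoundedContinuousFunction.ofNormedAddCommGroupDiscrete (fun φ => φ.1 g x) ‖x‖ fun φ => by
    calc ‖φ.1 g x‖ ≤ ‖φ.1 g‖ * ‖x‖ := ContinuousLinearMap.le_opNorm _ _
      _ ≤ 1 * ‖x‖ := mul_le_mul_of_nonneg_right (φ.2.1 g) (norm_nonneg _)
      _ = ‖x‖ := one_mul _

theorem ev_apply (g : FreeGroup I) (x : X) (φ : TT D) : ev D g x φ = φ.1 g x := rfl

theorem norm_ev_le (g : FreeGroup I) (x : X) : ‖ev D g x‖ ≤ ‖x‖ := by
  refine (BoundedContinuousFunction.norm_le (norm_nonneg _)).mpr fun φ => ?_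
  rw [ev_apply]
  calc ‖φ.1 g x‖ ≤ ‖φ.1 g‖ * ‖x‖ := ContinuousLinearMap.le_opNorm _ _
    _ ≤ 1 * ‖x‖ := mul_le_mul_of_nonneg_right (φ.2.1 g) (norm_nonneg _)
    _ = ‖x‖ := one_mul _

/-- the span of the evaluations -/
noncomputable def SS : Submodule ℝ (TT D →ᵇ ℝ) :=
  Submodule.span ℝ (Set.range fun p : FreeGroup I × X => ev D p.1 p.2)

theorem ev_mem (g : FreeGroup I) (x : X) : ev D g x ∈ SS D := Submodule.subset_span ⟨(g, x), rfl⟩

theorem MM_ev (h g : FreeGroup I) (x : X) : MM D h (ev D g x) = ev D (g * h) x := by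
  ext φ
  rfl

theorem MM_symm_eq (h : FreeGroup I) (F : TT D →ᵇ ℝ) : (MM D h).symm F = MM D h⁻¹ F := by
  ext φ
  rfl

theorem MM_mem (h : FreeGroup I) {F : TT D →ᵇ ℝ} (hF : F ∈ SS D) : MM D h F ∈ SS D := by
  unfold SS at hF
  induction hF using Submodule.span_induction with
  | mem F hF =>
    obtain ⟨⟨g, x⟩, rfl⟩ := hF
    simp only
    rw [MM_ev]
    exact ev_mem D _ _
  | zero =>
    rw [map_zero]
    exact Submodule.zero_mem _
  | add F G _ _ h1 h2 =>
    rw [map_add]
    exact Submodule.add_mem _ h1 h2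
  | smul a F _ h1 =>
    rw [map_smul]
    exact Submodule.smul_mem _ _ h1

theorem MM_mem' (h : FreeGroup I) {F : TT D →ᵇ ℝ} (hF : F ∈ (SS D).topologicalClosure) :
    MM D h F ∈ (SS D).topologicalClosure :=
  map_mem_closure (MM D h).continuous hF fun _ hx => MM_mem D h hx

/-- the isometry of the new space -/
noncomputable def rr (h : FreeGroup I) :
    (SS D).topologicalClosure ≃ₗᵢ[ℝ] (SS D).topologicalClosure where
  toFun y := ⟨MM D h y, MM_mem' D h y.2⟩
  invFun y := ⟨(MM D h).symm y, by rw [MM_symm_eq]; exact MM_mem' D _ y.2⟩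
  map_add' x y := by
    apply Subtype.ext
    exact map_add (MM D h) _ _
  map_smul' a x := by
    apply Subtype.ext
    exact map_smul (MM D h) _ _
  left_inv y := Subtype.ext ((MM D h).symm_apply_apply _)
  right_inv y := Subtype.ext ((MM D h).apply_symm_apply _)
  norm_map' y := (MM D h).norm_map _

theorem coe_rr (h : FreeGroup I) (y : (SS D).topologicalClosure) : (rr D h y : TT D →ᵇ ℝ) = MM D h y :=
  rfl

variable (Φ : StrongDual ℝ X → FreeGroup I → StrongDual ℝ X) (h1 : ∀ ψ, Φ ψ 1 = ψ)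
  (h2 : ∀ g, Good (fun ψ => Φ ψ g))
  (h3 : ∀ ψ u g e e', D u e e' → Φ ψ (FreeGroup.of u * g) e = Φ ψ g e')

/-- the points given by the functionals on `X` -/
def pt (ψ : StrongDual ℝ X) (hψ : ‖ψ‖ ≤ 1) : TT D :=
  ⟨Φ ψ, fun g => (h2 g).1 ψ hψ, fun u g e e' hD => h3 ψ u g e e' hD⟩

include h1 h2 h3 in
theorem norm_ev_one (x : X) : ‖ev D 1 x‖ = ‖x‖ := by
  refine le_antisymm (norm_ev_le D 1 x) ?_
  rcases eq_or_ne x 0 with rfl | hx
  · simp
  obtain ⟨ψ, hψ, hψx⟩ := exists_dual_vector ℝ x (norm_ne_zero_iff.mpr hx)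
  have e1 := (ev D 1 x).norm_coe_le_norm (pt D Φ h2 h3 ψ hψ.le)
  rw [ev_apply] at e1
  have e2 : (pt D Φ h2 h3 ψ hψ.le).1 1 x = ‖x‖ := by
    show Φ ψ 1 x = ‖x‖
    rw [h1, hψx]
    rfl
  rw [e2, norm_norm] at e1
  exact e1

end

theorem hnn : S_HNN := by
  classical
  intro X _ _ I D Φ h1 h2 h3 f hf
  let Y := (SS D).topologicalClosure
  have hYc : CompleteSpace Y := (SS D).isClosed_topologicalClosure.completeSpace_coe
  let i : X →ₗᵢ[ℝ] Y :=
    { toFun := fun x => ⟨ev D 1 x, (SS D).le_topologicalClosure (ev_mem D 1 x)⟩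
      map_add' := fun x y => by
        apply Subtype.ext
        ext φ
        exact map_add (φ.1 1) x y
      map_smul' := fun a x => by
        apply Subtype.ext
        ext φ
        exact map_smul (φ.1 1) a x
      norm_map' := fun x => norm_ev_one D Φ h1 h2 h3 x }
  let t : ℕ → TT D := fun n => pt D Φ h2 h3 (f n) (hf.1 n)
  let F : ℕ → StrongDual ℝ Y := fun n =>
    (BoundedContinuousFunction.evalCLM ℝ (t n)).comp Y.subtypeL
  have hF : ∀ n (y : Y), F n y = (y : TT D →ᵇ ℝ) (t n) := fun _ _ => rfl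
  have hS : ∀ y ∈ SS D, Tendsto (fun n => y (t n)) atTop (𝓝 0) := by
    intro y hy
    unfold SS at hy
    induction hy using Submodule.span_induction with
    | mem y hy =>
      obtain ⟨⟨g, x⟩, rfl⟩ := hy
      exact ((h2 g).2 f hf).2 x
    | zero => exact tendsto_const_nhds
    | add y z _ _ hy hz =>
      have := hy.add hz
      rw [add_zero] at this
      exact this
    | smul a y _ hy =>
      have := hy.const_mul a
      rw [mul_zero] at this
      exact this
  refine ⟨Y, inferInstance, inferInstance, hYc, i, fun u => rr D (FreeGroup.of u), F, ⟨?_, ?_⟩,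
    ?_, ?_, ?_⟩
  · intro n
    refine ContinuousLinearMap.opNorm_le_bound _ zero_le_one fun y => ?_
    rw [one_mul, hF]
    exact (y : TT D →ᵇ ℝ).norm_coe_le_norm (t n)
  · intro y
    rw [Metric.tendsto_atTop]
    intro ε hε
    obtain ⟨z, hz, hyz⟩ := Metric.mem_closure_iff.mp y.2 (ε / 2) (half_pos hε)
    obtain ⟨N, hN⟩ := Metric.tendsto_atTop.mp (hS z hz) (ε / 2) (half_pos hε)
    refine ⟨N, fun n hn => ?_⟩
    have e1 := hN n hn
    rw [Real.dist_eq, sub_zero] at e1
    rw [hF, Real.dist_eq, sub_zero]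
    have e2 : |(y : TT D →ᵇ ℝ) (t n) - z (t n)| ≤ dist (y : TT D →ᵇ ℝ) z := by
      rw [← Real.dist_eq]
      exact BoundedContinuousFunction.dist_coe_le_dist (t n)
    have e3 : |(y : TT D →ᵇ ℝ) (t n)| ≤ |(y : TT D →ᵇ ℝ) (t n) - z (t n)| + |z (t n)| := by
      have := abs_add_le ((y : TT D →ᵇ ℝ) (t n) - z (t n)) (z (t n))
      rwa [sub_add_cancel] at this
    linarith
  · intro n x
    rw [hF]
    show Φ (f n) 1 x = f n x
    rw [h1]
  · intro u e e' hD
    apply Subtype.ext
    rw [coe_rr]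
    show MM D (FreeGroup.of u) (ev D 1 e) = ev D 1 e'
    rw [MM_ev, one_mul]
    ext φ
    rw [ev_apply, ev_apply]
    have := φ.2.2 u 1 e e' hD
    rwa [mul_one] at this
  · intro hX hI
    have e1 : #(FreeGroup I × X) ≤ 𝔠 := by
      rw [mk_prod, lift_id, lift_id]
      calc #(FreeGroup I) * #X ≤ 𝔠 * 𝔠 := mul_le_mul' (card_freeGroup_le I hI) hX
        _ = 𝔠 := continuum_mul_self
    exact card_closure_le _ (card_span_le _ e1)

end Pool.Agent.Q98.HS
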