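import Pool.Agent.Q98.HS.Stm

/-! Project HS, JOB MK. -/

set_option autoImplicit false

namespace Pool.Agent.Q98.HS

open Filter Topology Cardinal

theorem mk : S_MK := by
  intro U _ _ Y _ _ e he F hF G ρ hG
  have h : ∀ y, Function.invFun e (e y) = y := Function.leftInverse_invFun he
  let q : St U :=
    { V := LinearMap.range e
      N := fun x => ‖Function.invFun e x‖
      f := fun n x => F n (Function.invFun e x)
      G := G
      ρ := fun g x => e (ρ g (Function.invFun e x))
      N_zero := by
        rintro _ ⟨y, rfl⟩ hy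
        rw [h] at hy
        rw [norm_eq_zero.mp hy, map_zero]
      N_add := by
        rintro _ ⟨x, rfl⟩ _ ⟨y, rfl⟩
        rw [← map_add, h, h, h]
        exact norm_add_le _ _
      N_smul := by
        rintro a _ ⟨x, rfl⟩
        rw [← map_smul, h, h, norm_smul, Real.norm_eq_abs]
      f_add := by
        rintro n _ ⟨x, rfl⟩ _ ⟨y, rfl⟩
        rw [← map_add, h, h, h, map_add]
      f_smul := by
        rintro n a _ ⟨x, rfl⟩
        rw [← map_smul, h, h, map_smul, smul_eq_mul]
      f_le := by
        rintro n _ ⟨x, rfl⟩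
        rw [h]
        have h1 := (F n).le_opNorm x
        rw [Real.norm_eq_abs] at h1
        exact h1.trans (mul_le_of_le_one_left (norm_nonneg _) (hF.1 n))
      f_lim := by
        rintro _ ⟨x, rfl⟩
        rw [h]
        exact hF.2 x
      ρ_mem := fun g _ x _ => ⟨_, rfl⟩
      ρ_add := by
        rintro g _ _ ⟨x, rfl⟩ _ ⟨y, rfl⟩
        rw [← map_add, h, h, h, map_add, map_add]
      ρ_smul := by
        rintro g _ a _ ⟨x, rfl⟩
        rw [← map_smul, h, h, map_smul, map_smul]
      ρ_N := by
        rintro g _ _ ⟨x, rfl⟩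
        rw [h, h, LinearIsometryEquiv.norm_map]
      ρ_surj := by
        rintro g _ _ ⟨y, rfl⟩
        refine ⟨e ((ρ g).symm y), ⟨_, rfl⟩, ?_⟩
        rw [h, LinearIsometryEquiv.apply_symm_apply]
      G_V := by
        intro g hg i
        obtain ⟨x, y, h1, h2, h3⟩ := hG g hg i
        rw [← h1, ← h2, h, h3]
        exact ⟨⟨_, rfl⟩, ⟨_, rfl⟩, rfl⟩ }
  have hq : ∀ y, e y ∈ q.V := fun y => ⟨y, rfl⟩
  refine ⟨q, rfl, fun y => ?_, fun n y => ?_, rfl, fun g _ y => ?_, fun hc => ?_⟩
  · show ‖Function.invFun e (e y)‖ = ‖y‖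
    rw [h]
  · show F n (Function.invFun e (e y)) = F n y
    rw [h]
  · show e (ρ g (Function.invFun e (e y))) = e (ρ g y)
    rw [h]
  · let k : Y ≃ₗᵢ[ℝ] q.X := LinearIsometryEquiv.ofSurjective
      { toFun := fun y => q.pt (e y) (hq y)
        map_add' := fun a b => q.val_inj (by rw [q.val_add, q.val_pt, q.val_pt, q.val_pt, map_add])
        map_smul' := fun a b => q.val_inj (by
          rw [RingHom.id_apply, q.val_smul, q.val_pt, q.val_pt, map_smul])
        norm_map' := fun y => by
          show ‖Function.invFun e (e y)‖ = ‖y‖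
          rw [h] } (by
      intro x
      obtain ⟨y, hy⟩ := q.val_mem x
      exact ⟨y, q.val_inj hy⟩)
    exact (completeSpace_congr (e := k.toHomeomorph.toEquiv)
      k.isometry.isUniformEmbedding).mp hc

end Pool.Agent.Q98.HS
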