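import Pool.Agent.Q98.HS.Stm

/-! Project HS: from `S_FIN` to the theorem. -/

set_option autoImplicit false

namespace Pool.Agent.Q98.HS

open Filter Topology

/-- isometric embeddings of finite-dimensional spaces and the extension of isometries between finite
sequences give the homogeneity for finite-dimensional subspaces -/
theorem homogeneous {X : Type} [NormedAddCommGroup X] [NormedSpace ℝ X]
    (h : ∀ (n : ℕ) (c c' : Fin n → X), (∀ a : Fin n → ℝ, ‖∑ i, a i • c i‖ = ‖∑ i, a i • c' i‖) →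
      ∃ u : X ≃ₗᵢ[ℝ] X, ∀ i, u (c i) = c' i)
    (E F : Submodule ℝ X) [FiniteDimensional ℝ E] (k : E ≃ₗᵢ[ℝ] F) :
    ∃ U : X ≃ₗᵢ[ℝ] X, ∀ e : E, U e = k e := by
  let b := Module.finBasis ℝ E
  obtain ⟨u, hu⟩ := h _ (fun i => (b i : X)) (fun i => (k (b i) : X)) (by
    intro a
    have h1 : ∑ i, a i • (b i : X) = ((∑ i, a i • b i : E) : X) := by
      rw [Submodule.coe_sum]
      rfl
    have h2 : ∑ i, a i • (k (b i) : X) = ((k (∑ i, a i • b i) : F) : X) := by
      rw [map_sum, Submodule.coe_sum]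
      refine Finset.sum_congr rfl fun i _ => ?_
      rw [map_smul]
      rfl
    rw [h1, h2]
    exact (k.norm_map (∑ i, a i • b i)).symm)
  refine ⟨u, ?_⟩
  have h3 : u.toLinearEquiv.toLinearMap.comp E.subtype =
      F.subtype.comp k.toLinearEquiv.toLinearMap := b.ext fun i => hu i
  exact fun e => LinearMap.congr_fun h3 e

/-- homogeneity and universality for finite-dimensional spaces give universal disposition for
finite-dimensional spaces -/
theorem disposition {X : Type} [NormedAddCommGroup X] [NormedSpace ℝ X]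
    (h : ∀ (n : ℕ) (c c' : Fin n → X), (∀ a : Fin n → ℝ, ‖∑ i, a i • c i‖ = ‖∑ i, a i • c' i‖) →
      ∃ u : X ≃ₗᵢ[ℝ] X, ∀ i, u (c i) = c' i)
    {E : Type} [NormedAddCommGroup E] [NormedSpace ℝ E] [FiniteDimensional ℝ E]
    (k : E →ₗᵢ[ℝ] X) (S : Submodule ℝ E) (f : S →ₗᵢ[ℝ] X) :
    ∃ g : E →ₗᵢ[ℝ] X, ∀ s : S, g s = f s := by
  let b := Module.finBasis ℝ S
  obtain ⟨u, hu⟩ := h _ (fun i => k (b i : E)) (fun i => f (b i)) (by
    intro a
    have h1 : ∑ i, a i • k (b i : E) = k ((∑ i, a i • b i : S) : E) := by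
      rw [Submodule.coe_sum, map_sum]
      refine Finset.sum_congr rfl fun i _ => ?_
      rw [← map_smul]
      rfl
    have h2 : ∑ i, a i • f (b i) = f (∑ i, a i • b i) := by
      rw [map_sum]
      exact Finset.sum_congr rfl fun i _ => (map_smul _ _ _).symm
    rw [h1, h2, k.norm_map, f.norm_map]
    rfl)
  refine ⟨u.toLinearIsometry.comp k, ?_⟩
  have h3 : (u.toLinearEquiv.toLinearMap.comp k.toLinearMap).comp S.subtype = f.toLinearMap :=
    b.ext fun i => hu i
  exact fun s => LinearMap.congr_fun h3 s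

end Pool.Agent.Q98.HS
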