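import Pool.Agent.Q98.HS.Stm

/-! Project HS, JOB RFD. -/

set_option autoImplicit false

namespace Pool.Agent.Q98.HS

open Filter Topology

theorem rfd : S_RFD := by
  intro X _ _ n c c' hcc
  classical
  -- the two linear maps
  let A : (Fin n → ℝ) →ₗ[ℝ] X := Fintype.linearCombination ℝ c
  let A' : (Fin n → ℝ) →ₗ[ℝ] X := Fintype.linearCombination ℝ c'
  have hA : ∀ a, A a = ∑ i, a i • c i := fun a => Fintype.linearCombination_apply ℝ c a
  have hA' : ∀ a, A' a = ∑ i, a i • c' i := fun a => Fintype.linearCombination_apply ℝ c' a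
  have hn : ∀ a, ‖A a‖ = ‖A' a‖ := fun a => by rw [hA, hA']; exact hcc a
  set E : Submodule ℝ X := LinearMap.range A with hE
  set F : Submodule ℝ X := LinearMap.range A' with hF
  -- the isometry
  obtain ⟨u, hu⟩ : ∃ u : E →ₗ[ℝ] F, ∀ a, (u ⟨A a, a, rfl⟩ : X) = A' a := by
    have h1 : LinearMap.ker A.rangeRestrict ≤ LinearMap.ker A'.rangeRestrict := by
      intro a ha
      rw [LinearMap.mem_ker] at ha ⊢
      have h2 : A a = 0 := congrArg Subtype.val ha
      apply Subtype.ext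
      show A' a = 0
      rw [← norm_eq_zero, ← hn, h2, norm_zero]
    obtain ⟨g, hg⟩ := A.rangeRestrict.exists_rightInverse_of_surjective A.range_rangeRestrict
    refine ⟨A'.rangeRestrict.comp g, fun a => ?_⟩
    have h3 : A.rangeRestrict (g ⟨A a, a, rfl⟩ - a) = 0 := by
      rw [map_sub]
      have h4 : A.rangeRestrict (g ⟨A a, a, rfl⟩) = ⟨A a, a, rfl⟩ := LinearMap.congr_fun hg _
      rw [h4]
      exact sub_self _
    have h5 : A'.rangeRestrict (g ⟨A a, a, rfl⟩ - a) = 0 :=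
      LinearMap.mem_ker.mp (h1 (LinearMap.mem_ker.mpr h3))
    rw [map_sub, sub_eq_zero] at h5
    exact congrArg Subtype.val h5
  have hun : ∀ x, ‖u x‖ = ‖x‖ := by
    rintro ⟨_, a, rfl⟩
    show ‖(u ⟨A a, a, rfl⟩ : X)‖ = ‖A a‖
    rw [hu, hn]
  let v : E →L[ℝ] F := u.mkContinuous 1 fun x => by rw [hun, one_mul]
  have hv : ∀ a, (v ⟨A a, a, rfl⟩ : X) = A' a := hu
  have hvn : ∀ φ : StrongDual ℝ F, ‖φ.comp v‖ ≤ ‖φ‖ := by
    intro φ
    refine ContinuousLinearMap.opNorm_le_bound _ (norm_nonneg φ) fun x => ?_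
    refine (φ.le_opNorm (v x)).trans (le_of_eq ?_)
    show ‖φ‖ * ‖u x‖ = _
    rw [hun]
  choose R hR1 hR2 using fun ψ : StrongDual ℝ X =>
    exists_extension_norm_eq E ((ψ.comp F.subtypeL).comp v)
  have hRn : ∀ ψ, ‖R ψ‖ ≤ ‖ψ.comp F.subtypeL‖ := fun ψ => by rw [hR2]; exact hvn _
  have hRn' : ∀ ψ, ‖R ψ‖ ≤ ‖ψ‖ := by
    intro ψ
    refine (hRn ψ).trans (ContinuousLinearMap.opNorm_le_bound _ (norm_nonneg _) fun x => ?_)
    exact ψ.le_opNorm (x : X)
  refine ⟨R, ⟨fun ψ hψ => (hRn' ψ).trans hψ, fun f hf => ⟨fun k => (hRn' _).trans (hf.1 k), ?_⟩⟩, ?_⟩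
  · -- null sequences
    have hfin : FiniteDimensional ℝ F := LinearMap.finiteDimensional_range A'
    let b := Module.finBasis ℝ F
    obtain ⟨C, hC, hCb⟩ := b.exists_opNorm_le (F := ℝ)
    have h1 : Tendsto (fun k => ∑ i, |f k (b i : X)|) atTop (𝓝 0) := by
      have h2 : Tendsto (fun k => ∑ i, |f k (b i : X)|) atTop
          (𝓝 (∑ _i : Fin (Module.finrank ℝ F), |(0 : ℝ)|)) :=
        tendsto_finsetSum _ fun i _ => (hf.2 (b i : X)).abs
      simpa using h2
    have h3 : ∀ k, ‖(f k).comp F.subtypeL‖ ≤ C * ∑ i, |f k (b i : X)| := by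
      intro k
      refine hCb (Finset.sum_nonneg fun i _ => abs_nonneg _) fun i => ?_
      rw [Real.norm_eq_abs]
      exact Finset.single_le_sum (f := fun i => |f k (b i : X)|) (fun i _ => abs_nonneg _)
        (Finset.mem_univ i)
    intro x
    refine squeeze_zero_norm (a := fun k => C * (∑ i, |f k (b i : X)|) * ‖x‖) (fun k => ?_) ?_
    · refine ((R (f k)).le_opNorm x).trans ?_
      exact mul_le_mul_of_nonneg_right ((hRn _).trans (h3 k)) (norm_nonneg _)
    · have h4 := (h1.const_mul C).mul_const ‖x‖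
      simpa using h4
  · intro ψ i
    have h1 : A (Pi.single i 1) = c i := by
      rw [hA, Finset.sum_eq_single i]
      · simp
      · intro j _ hj
        simp [hj]
      · simp
    have h2 : A' (Pi.single i 1) = c' i := by
      rw [hA', Finset.sum_eq_single i]
      · simp
      · intro j _ hj
        simp [hj]
      · simp
    have h3 := hR1 ψ ⟨A (Pi.single i 1), Pi.single i 1, rfl⟩
    rw [← h1, ← h2, ← hv]
    exact h3

end Pool.Agent.Q98.HS
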