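import Pool.Agent.Q98.HS.Stm

/-! Project HS, JOB STEP. -/

set_option autoImplicit false

namespace Pool.Agent.Q98.HS

open Filter Topology Cardinal

theorem good_comp {X : Type} [NormedAddCommGroup X] [NormedSpace ℝ X] (u : X ≃ₗᵢ[ℝ] X) :
    Good (fun ψ : StrongDual ℝ X => ψ.comp (u.toContinuousLinearEquiv : X →L[ℝ] X)) := by
  have h1 : ∀ ψ : StrongDual ℝ X, ‖ψ‖ ≤ 1 →
      ‖ψ.comp (u.toContinuousLinearEquiv : X →L[ℝ] X)‖ ≤ 1 := by
    intro ψ hψ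
    refine ContinuousLinearMap.opNorm_le_bound _ zero_le_one fun x => ?_
    have h2 : ψ.comp (u.toContinuousLinearEquiv : X →L[ℝ] X) x = ψ (u x) := rfl
    rw [h2]
    refine (ψ.le_opNorm _).trans ?_
    rw [u.norm_map]
    exact mul_le_mul_of_nonneg_right hψ (norm_nonneg _)
  exact ⟨h1, fun f hf => ⟨fun n => h1 _ (hf.1 n), fun x => hf.2 (u x)⟩⟩

theorem mk_Lb_le {X : Type} (hX : #X ≤ 𝔠) : #(Lb X) ≤ 𝔠 := by
  have h1 : Function.Injective (fun g : Lb X => (List.ofFn g.2.1, List.ofFn g.2.2)) := by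
    rintro ⟨n, c, c'⟩ ⟨m, d, d'⟩ h
    have h2 : List.ofFn c = List.ofFn d := congrArg Prod.fst h
    have h3 : List.ofFn c' = List.ofFn d' := congrArg Prod.snd h
    rw [List.ofFn_inj'] at h2
    obtain ⟨rfl, h4⟩ := Sigma.mk.inj_iff.mp h2
    rw [List.ofFn_inj] at h3
    rw [eq_of_heq h4, h3]
  have h5 : #(List X) ≤ 𝔠 := (mk_list_le_max X).trans (max_le aleph0_le_continuum hX)
  calc #(Lb X) ≤ #(List X × List X) := mk_le_of_injective h1
    _ = #(List X) * #(List X) := by rw [mk_prod, lift_id]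
    _ ≤ 𝔠 * 𝔠 := mul_le_mul' h5 h5
    _ = 𝔠 := continuum_mul_self

section step

variable {U : Type} [AddCommGroup U] [Module ℝ U] (p : St U)

/-- the valid labels -/
def Val : Set (Lb U) := {g | (∀ i, g.2.1 i ∈ p.V ∧ g.2.2 i ∈ p.V) ∧
  ∀ a : Fin g.1 → ℝ, p.N (∑ i, a i • g.2.1 i) = p.N (∑ i, a i • g.2.2 i)}

theorem labels (hR : S_RFD) (u : (p.G ∪ Val p : Set (Lb U))) :
    ∃ (D : p.X → p.X → Prop) (Rt Rf : StrongDual ℝ p.X → StrongDual ℝ p.X), Good Rt ∧ Good Rf ∧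
      (∀ e e', D e e' → ∀ ψ, Rt ψ e = ψ e' ∧ Rf ψ e' = ψ e) ∧
      (u.1 ∈ p.G → ∀ e, D e (p.iso u.1 e)) ∧
      ∀ i, ∃ x y : p.X, p.val x = u.1.2.1 i ∧ p.val y = u.1.2.2 i ∧ D x y := by
  by_cases hu : u.1 ∈ p.G
  · refine ⟨fun e e' => e' = p.iso u.1 e, _, _, good_comp (p.iso u.1), good_comp (p.iso u.1).symm,
      ?_, fun _ e => rfl, fun i => ?_⟩
    · rintro e e' rfl ψ
      refine ⟨rfl, ?_⟩
      show ψ ((p.iso u.1).symm (p.iso u.1 e)) = ψ e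
      rw [LinearIsometryEquiv.symm_apply_apply]
    · obtain ⟨h1, h2, h3⟩ := p.G_V u.1 hu i
      refine ⟨p.pt _ h1, p.pt _ h2, rfl, rfl, p.val_inj ?_⟩
      rw [p.val_iso hu, p.val_pt, p.val_pt, h3]
  · obtain ⟨h1, h2⟩ : u.1 ∈ Val p := u.2.resolve_left hu
    set c : Fin u.1.1 → p.X := fun i => p.pt _ (h1 i).1 with hc
    set c' : Fin u.1.1 → p.X := fun i => p.pt _ (h1 i).2 with hc'
    have h3 : ∀ a : Fin u.1.1 → ℝ, ‖∑ i, a i • c i‖ = ‖∑ i, a i • c' i‖ := by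
      intro a
      rw [p.norm_def, p.norm_def, ← p.valₗ_apply, ← p.valₗ_apply, map_sum, map_sum]
      simp only [map_smul]
      exact h2 a
    obtain ⟨R, hR1, hR2⟩ := hR p.X u.1.1 c c' h3
    obtain ⟨R', hR1', hR2'⟩ := hR p.X u.1.1 c' c fun a => (h3 a).symm
    refine ⟨fun e e' => ∃ i, e = c i ∧ e' = c' i, R, R', hR1, hR1', ?_, fun h => absurd h hu,
      fun i => ⟨c i, c' i, rfl, rfl, i, rfl, rfl⟩⟩
    rintro e e' ⟨i, rfl, rfl⟩ ψ
    exact ⟨hR2 ψ i, hR2' ψ i⟩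

end step

theorem step (hR : S_RFD) (hE : S_EXT) (hH : S_HNN) (hM : S_EMB) (hK : S_MK) : S_STEP := by
  classical
  intro U _ _ hU p hp
  set I : Set (Lb U) := p.G ∪ Val p with hI
  choose D Rt Rf hRt hRf hD hDG hDl using labels p hR
  obtain ⟨Φ, hΦ1, hΦ2, hΦ3⟩ := hE p.X I D (fun u b => if b then Rt u else Rf u)
    (fun u b => by cases b <;> simp [hRt, hRf])
    (fun u e e' h ψ => by simpa using hD u e e' h ψ)
  obtain ⟨Y, i1, i2, i3, i, ρ, F, hF, hFi, hρ, hcard⟩ := hH p.X I D Φ hΦ1 hΦ2 hΦ3 p.F p.null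
  have hX : #p.X ≤ 𝔠 := hp
  have hIc : #I ≤ 𝔠 := by
    refine le_trans ?_ (mk_Lb_le hX)
    have hmem : ∀ (u : I) (j : Fin u.1.1), u.1.2.1 j ∈ p.V ∧ u.1.2.2 j ∈ p.V := by
      rintro ⟨u, hu | hu⟩ j
      · exact ⟨(p.G_V u hu j).1, (p.G_V u hu j).2.1⟩
      · exact hu.1 j
    refine mk_le_of_injective (f := fun u : I => (⟨u.1.1, fun j => p.pt _ (hmem u j).1,
      fun j => p.pt _ (hmem u j).2⟩ : Lb p.X)) ?_
    intro u v huv
    have h1 : ∀ w : I, (⟨w.1.1, fun j => p.val (p.pt _ (hmem w j).1),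
      fun j => p.val (p.pt _ (hmem w j).2)⟩ : Lb U) = w.1 := fun w => rfl
    let T : Lb p.X → Lb U := fun g => ⟨g.1, fun j => p.val (g.2.1 j), fun j => p.val (g.2.2 j)⟩
    have h2 := congrArg T huv
    exact Subtype.ext h2
  have hYc := hcard hX hIc
  obtain ⟨e, he, hei⟩ := hM U hU p.V hp Y hYc i.toLinearMap i.injective
  have hei' : ∀ x : p.X, e (i x) = p.val x := fun x => hei x
  obtain ⟨q, hq1, hq2, hq3, hq4, hq5, hq6⟩ := hK U Y e he F hF I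
    (fun g => if h : g ∈ I then ρ ⟨g, h⟩ else LinearIsometryEquiv.refl ℝ Y) (by
      intro g hg j
      obtain ⟨x, y, h1, h2, h3⟩ := hDl ⟨g, hg⟩ j
      refine ⟨i x, i y, ?_, ?_, ?_⟩
      · rw [hei', h1]
      · rw [hei', h2]
      · rw [dif_pos hg]
        exact hρ _ _ _ h3)
  refine ⟨q, ?_, ⟨?_, ?_, ?_, ?_, ?_⟩, hq6 i3, ?_⟩
  · have h1 : #q.V ≤ #Y := by
      rw [hq1]
      exact mk_range_le
    exact h1.trans hYc
  · intro x hx
    rw [hq1]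
    exact ⟨i (p.pt x hx), hei' _⟩
  · intro x hx
    have h1 := hq2 (i (p.pt x hx))
    rw [hei', p.val_pt, i.norm_map, p.norm_def, p.val_pt] at h1
    exact h1
  · intro n x hx
    have h1 := hq3 n (i (p.pt x hx))
    rw [hei', p.val_pt, hFi, p.F_apply, p.val_pt] at h1
    exact h1
  · rw [hq4]
    exact Set.subset_union_left
  · intro g hg x hx
    have hgI : g ∈ I := Or.inl hg
    have h1 := hq5 g hgI (i (p.pt x hx))
    rw [dif_pos hgI, hρ _ _ _ (hDG ⟨g, hgI⟩ hg (p.pt x hx)), hei', hei', p.val_pt,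
      p.val_iso hg, p.val_pt] at h1
    exact h1
  · intro n c c' h1 h2
    rw [hq4]
    exact Or.inr ⟨h1, h2⟩

end Pool.Agent.Q98.HS
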