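import Pool.Agent.Q98.HS.Def

/-!
Project HS (helper98, MP_c85420_an). Statements; the docstrings contain complete proofs.

The whole proof: a transfinite sequence of stages (normed spaces with a null sequence of functionals
and a set of isometries) of length `ω₁` is built; in every step every isometry between
finite-dimensional subspaces is extended to an isometry of the whole (larger) space (a kind of HNN
extension, `S_HNN`), the functionals are extended and still tend to zero pointwise. The union is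
complete, homogeneous, contains all finite-dimensional spaces (so it is a strong Gurarii space), and the
null sequence of functionals shows that it is not of universal disposition for separable spaces.
-/

set_option autoImplicit false

namespace Pool.Agent.Q98.HS

open Filter Topology Cardinal

/-- JOB RFD. Dual form of a finite-dimensional partial isometry.
Proof. `E`, `F` = the spans of the `c i` and of the `c' i`; by hypothesis `u : E → F`, `∑ a_i c_i ↦ ∑ a_i c'_i`, is
well defined and a linear isometry (or: avoid `u` and take the functional `∑ a_i c_i ↦ ψ (∑ a_i c'_i)`, well defined as the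
kernels of the two maps `a ↦ ∑ a_i c_i`, `a ↦ ∑ a_i c'_i` agree). Let `R ψ` be a Hahn-Banach extension of `ψ ∘ u`
with the same norm as `ψ ∘ u` (`Real.exists_extension_norm_eq`). So `‖R ψ‖ = ‖ψ ∘ u‖ ≤ ‖ψ restricted to F‖ ≤ ‖ψ‖`. If `f` is
null then the functionals `f n` restricted to the finite-dimensional space `F` tend to zero pointwise, so in
norm (for instance `Module.Basis.exists_opNorm_le`), so `‖R (f n)‖ → 0`, in particular `R (f n) x → 0`. -/
def S_RFD : Prop := ∀ (X : Type) [NormedAddCommGroup X] [NormedSpace ℝ X] (n : ℕ)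
  (c c' : Fin n → X), (∀ a : Fin n → ℝ, ‖∑ i, a i • c i‖ = ‖∑ i, a i • c' i‖) →
  ∃ R : StrongDual ℝ X → StrongDual ℝ X, Good R ∧ ∀ ψ i, R ψ (c i) = ψ (c' i)

/-- JOB EXT. Extension along the Cayley graph of the free group.
Proof. For a word `L : List (I × Bool)` let `Φ' ψ L = L.foldr (fun s φ => R s.1 s.2 φ) ψ`, and
`Φ ψ g = Φ' ψ g.toWord` (classical decidable equality on `I`). `Good` is clear by induction on the word. The last
property: let `L = g.toWord`, a reduced word; `(of u * g).toWord = reduce ((u, true) :: L)` (see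
`FreeGroup.toWord_mul`, `FreeGroup.reduce.cons`, `FreeGroup.reduce_toWord`). If `L` does not begin with `(u, false)`
this is `(u, true) :: L`, so `Φ ψ (of u * g) e = R u true (Φ' ψ L) e = Φ' ψ L e'`. If `L = (u, false) :: L'` then it is `L'`, and
`Φ ψ g e' = R u false (Φ' ψ L') e' = Φ' ψ L' e = Φ ψ (of u * g) e`. -/
def S_EXT : Prop := ∀ (X : Type) [NormedAddCommGroup X] [NormedSpace ℝ X] (I : Type)
  (D : I → X → X → Prop) (R : I → Bool → StrongDual ℝ X → StrongDual ℝ X),
  (∀ u b, Good (R u b)) →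
  (∀ u e e', D u e e' → ∀ ψ, R u true ψ e = ψ e' ∧ R u false ψ e' = ψ e) →
  ∃ Φ : StrongDual ℝ X → FreeGroup I → StrongDual ℝ X, (∀ ψ, Φ ψ 1 = ψ) ∧
    (∀ g, Good (fun ψ => Φ ψ g)) ∧
    ∀ ψ u g e e', D u e e' → Φ ψ (FreeGroup.of u * g) e = Φ ψ g e'

/-- JOB HNN. The extension of the space.
Proof. Let `T` be the set of the families `φ : FreeGroup I → StrongDual ℝ X` with `‖φ g‖ ≤ 1` and
`φ (of u * g) e = φ g e'` whenever `D u e e'`. For `g : FreeGroup I`, `x : X` let `ev g x` be the bounded function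
`φ ↦ φ g x` on `T` (an element of `lp (fun _ : T => ℝ) ⊤`, of norm `≤ ‖x‖`, linear in `x`). Let `Y` be the closure of
the span of all `ev g x` (a closed subspace, so complete), `i x = ev 1 x`. It is isometric: let `ψ` be a
norming functional of `x`; then `Φ ψ ∈ T` and `(ev 1 x) (Φ ψ) = Φ ψ 1 x = ψ x = ‖x‖`.
For `h : FreeGroup I` the map `r_h : T → T`, `(r_h φ) g = φ (g * h)` is well defined; composition with `r_h` is a linear
isometry `M_h` of `lp ∞` (with inverse `M_{h⁻¹}`, as `r_h` is a bijection) with `M_h (ev g x) = ev (g * h) x`, so it maps `Y`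
onto `Y`. Let `ρ u = M_{of u}`. If `D u e e'` then `ρ u (i e) = ev (of u) e = ev 1 e' = i e'` (as
`φ (of u * 1) e = φ 1 e'` for `φ ∈ T`). Let `F n` be the evaluation at the point `Φ (f n)` of `T`: `‖F n‖ ≤ 1`,
`F n (i x) = f n x`, and `F n (ev g x) = Φ (f n) g x → 0` as `Φ · g` is good; so `F n y → 0` for `y` in the span and, as
`‖F n‖ ≤ 1`, for `y ∈ Y`. Cardinality: the span of the `ev g x` is the range of a map on `FreeGroup I × X →₀ ℝ`, of cardinality at most
the continuum `𝔠`; a point of the closure is the limit of a sequence in the span, and `𝔠 ^ ℵ₀ = 𝔠`. -/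
def S_HNN : Prop := ∀ (X : Type) [NormedAddCommGroup X] [NormedSpace ℝ X] (I : Type)
  (D : I → X → X → Prop) (Φ : StrongDual ℝ X → FreeGroup I → StrongDual ℝ X),
  (∀ ψ, Φ ψ 1 = ψ) → (∀ g, Good (fun ψ => Φ ψ g)) →
  (∀ ψ u g e e', D u e e' → Φ ψ (FreeGroup.of u * g) e = Φ ψ g e') →
  ∀ f : ℕ → StrongDual ℝ X, Null f →
  ∃ (Y : Type) (_ : NormedAddCommGroup Y) (_ : NormedSpace ℝ Y) (_ : CompleteSpace Y)
    (i : X →ₗᵢ[ℝ] Y) (ρ : I → Y ≃ₗᵢ[ℝ] Y) (F : ℕ → StrongDual ℝ Y), Null F ∧
    (∀ n x, F n (i x) = f n x) ∧ (∀ u e e', D u e e' → ρ u (i e) = i e') ∧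
    (#X ≤ 𝔠 → #I ≤ 𝔠 → #Y ≤ 𝔠)

/-- JOB EMB. A large vector space has room for small extensions.
Proof. Let `W` be a complement of `V` in `U` (`Submodule.exists_isCompl`), `C` a complement of the range of `i` in `Y`. As `#U > 𝔠`
and `#V ≤ 𝔠`, we have `#W > 𝔠` (`#U = #V * #W`), so `Module.rank ℝ W > 𝔠` (a real vector space of rank `≤ 𝔠` has
at most `𝔠` elements: it is the image of `basis →₀ ℝ`) and `Module.rank ℝ C ≤ #C ≤ 𝔠`, so there is an injective linear map
`C → W` (map a basis of `C` injectively into a basis of `W`). Together with `i x ↦ x` this gives `e` on `Y = range i ⊕ C`. -/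
def S_EMB : Prop := ∀ (U : Type) [AddCommGroup U] [Module ℝ U], 𝔠 < #U →
  ∀ V : Submodule ℝ U, #V ≤ 𝔠 → ∀ (Y : Type) [AddCommGroup Y] [Module ℝ Y], #Y ≤ 𝔠 →
  ∀ i : V →ₗ[ℝ] Y, Function.Injective i →
  ∃ e : Y →ₗ[ℝ] U, Function.Injective e ∧ ∀ x : V, e (i x) = x

/-- JOB MK. Transport of structure.
Proof. `V` = range of `e`, and with `e' : U → Y` a left inverse of `e` (`Function.invFun e`) let `N x = ‖e' x‖`,
`f n x = F n (e' x)`, `ρ g x = e (ρ g (e' x))`. All properties follow from `e' (e y) = y`. The completeness: `y ↦ e y` is an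
isometric bijection of `Y` onto `q.X`. -/
def S_MK : Prop := ∀ (U : Type) [AddCommGroup U] [Module ℝ U]
  (Y : Type) [NormedAddCommGroup Y] [NormedSpace ℝ Y] (e : Y →ₗ[ℝ] U), Function.Injective e →
  ∀ F : ℕ → StrongDual ℝ Y, Null F → ∀ (G : Set (Lb U)) (ρ : Lb U → Y ≃ₗᵢ[ℝ] Y),
  (∀ g ∈ G, ∀ i, ∃ x y : Y, e x = g.2.1 i ∧ e y = g.2.2 i ∧ ρ g x = y) →
  ∃ q : St U, q.V = LinearMap.range e ∧ (∀ y, q.N (e y) = ‖y‖) ∧ (∀ n y, q.f n (e y) = F n y) ∧
    q.G = G ∧ (∀ g ∈ G, ∀ y, q.ρ g (e y) = e (ρ g y)) ∧ (CompleteSpace Y → CompleteSpace q.X)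

/-- JOB UNI. The union of a chain of stages.
Proof. `V = ⨆ i, (p i).V`, `x ∈ V ↔ ∃ i, x ∈ (p i).V` as the family is directed
(`Submodule.mem_iSup_of_directed`). For `x ∈ V` choose `i` with `x ∈ (p i).V` and let `N x = (p i).N x`, `f n x = (p i).f n x` (and
something, for instance `0`, for `x ∉ V`); by `Le` the values do not depend on `i`: `N x = (p i).N x` for all
`i` with `x ∈ (p i).V`. `G = ⋃ i, (p i).G`; for `g ∈ G`, `x ∈ V` choose `i` with `g ∈ (p i).G`, `x ∈ (p i).V` and let
`ρ g x = (p i).ρ g x`, again independent of `i`. Every property involves finitely many vectors and labels, so it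
holds as it holds in some `p i`. (For `ρ_surj`: `y ∈ V`, `g ∈ G` are in some `p i`. For `G_V` note that `g ∈ (p i).G` gives
all the vectors of `g` in `(p i).V`.) -/
def S_UNI : Prop := ∀ (U : Type) [AddCommGroup U] [Module ℝ U] (ι : Type) [LinearOrder ι]
  [Nonempty ι] (p : ι → St U), (∀ i j, i ≤ j → Le (p i) (p j)) →
  ∃ q : St U, (∀ x, x ∈ q.V ↔ ∃ i, x ∈ (p i).V) ∧ (∀ i, Le (p i) q) ∧
    ∀ g, g ∈ q.G ↔ ∃ i, g ∈ (p i).G

/-- JOB CHN. A chain of length `ω₁`.
Proof. `W` = the ordinals below `ω₁` (`(Cardinal.aleph 1).ord.ToType` or `(Ordinal.omega 1).ToType`): a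
well-order, all initial segments `{b | b < a}` are countable, and every countable subset is bounded strictly
(`ω₁` has uncountable cofinality, `W` has no last element). Define `F a` by well-founded recursion: if `c = {F b | b < a}` is
nonempty and is a chain (any two elements comparable for `le`) take `b` with `le p b` for all `p ∈ c`, and also `p0` in
place of `b` if `a` is the first element, and let `F a` be some `q` with `R b q`
(better: use the chain `c ∪ {p0}`, which is countable and not empty, everywhere). By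
induction on `a`: for all `b < a` we have `R (F b) (F a)`, and `R p0 (F a)`; so `c ∪ {p0}` is a chain at each `a`, and
`R (F b) (F a)` follows from `le (F b) b'` and `R b' (F a)`. -/
def S_CHN : Prop := ∀ (P : Type) (le R : P → P → Prop), (∀ p, le p p) →
  (∀ p q r, le p q → le q r → le p r) → (∀ p q r, le p q → R q r → R p r) →
  (∀ p q, R p q → le p q) →
  (∀ c : Set P, c.Countable → c.Nonempty → (∀ p ∈ c, ∀ q ∈ c, le p q ∨ le q p) →
    ∃ b, ∀ p ∈ c, le p b) →
  (∀ p, ∃ q, R p q) → ∀ p0 : P,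
  ∃ (W : Type) (_ : LinearOrder W) (F : W → P), (∀ a b, a < b → R (F a) (F b)) ∧
    (∀ a, R p0 (F a)) ∧ ∀ c : Set W, c.Countable → ∃ b, ∀ a ∈ c, a < b

/-- JOB BASE. The space at the beginning.
Proof. Let `L = lp (fun _ : ℕ => ℝ) ⊤`, `e n = lp.single ⊤ n 1`, `C` = the closure of the span of the `e n` in `L` (a copy of `c_0`),
`B = L × C` (maximum norm), `f n (a, b) = b n`. `Null`: `|b n| ≤ ‖b‖`, and `b n → 0` for `b` in the span (finitely supported), so
for `b ∈ C`. `#B ≤ 𝔠` as `L` injects into `ℕ → ℝ`. A finite-dimensional space `E` embeds isometrically in `L` (take a dense sequence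
`x k` in `E`, norming functionals `φ k` of norm at most one for `x k`, and `x ↦ (φ k x)_k`), hence in `B` (second
coordinate `0`). `T` = the closure of the span of the `e n` and of the constant function `y = 1` in `L` (closed, so
complete; the closure of the span of a countable set, so separable), `S` = the subspace of `T` of the elements of `C`, closed;
`j s = (0, s)`, isometric. `‖y - 2 e n‖ = sup(|1 - 2|, |1|) = 1`, `f n (j (e n)) = (e n) n = 1`. -/
def S_BASE : Prop := ∃ (B : Type) (_ : NormedAddCommGroup B) (_ : NormedSpace ℝ B)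
  (f : ℕ → StrongDual ℝ B), Null f ∧ #B ≤ 𝔠 ∧
  (∀ (E : Type) [NormedAddCommGroup E] [NormedSpace ℝ E] [FiniteDimensional ℝ E],
    Nonempty (E →ₗᵢ[ℝ] B)) ∧
  ∃ (T : Type) (_ : NormedAddCommGroup T) (_ : NormedSpace ℝ T) (_ : CompleteSpace T)
    (_ : TopologicalSpace.SeparableSpace T) (S : Submodule ℝ T) (j : S →ₗᵢ[ℝ] B) (y : T)
    (e : ℕ → S), IsClosed (S : Set T) ∧ (∀ n, ‖y - (2 : ℝ) • (e n : T)‖ ≤ 1) ∧
    ∀ n, f n (j (e n)) = 1

/-- JOB STEP. One step. (Proof: the labels `I = p.G ∪ {valid pairs of sequences in p}`; the relation `D` is the graph of `p.iso g`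
for `g ∈ p.G` and `D u (c i) (c' i)` for the other labels; `S_RFD`, `S_EXT`, `S_HNN`, `S_EMB`, `S_MK`.) -/
def S_STEP : Prop := ∀ (U : Type) [AddCommGroup U] [Module ℝ U], 𝔠 < #U → ∀ p : St U, #p.V ≤ 𝔠 →
  ∃ q : St U, #q.V ≤ 𝔠 ∧ Le p q ∧ CompleteSpace q.X ∧ Task p q

/-- JOB FIN. The space. (Proof: `S_STEP`, `S_UNI`, `S_CHN`, `S_BASE`, `S_EMB`, `S_MK`.) -/
def S_FIN : Prop := ∃ (U : Type) (_ : AddCommGroup U) (_ : Module ℝ U) (q : St U),
  CompleteSpace q.X ∧
  (∀ (n : ℕ) (c c' : Fin n → q.X), (∀ a : Fin n → ℝ, ‖∑ i, a i • c i‖ = ‖∑ i, a i • c' i‖) →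
    ∃ u : q.X ≃ₗᵢ[ℝ] q.X, ∀ i, u (c i) = c' i) ∧
  (∀ (E : Type) [NormedAddCommGroup E] [NormedSpace ℝ E] [FiniteDimensional ℝ E],
    Nonempty (E →ₗᵢ[ℝ] q.X)) ∧
  ∃ (T : Type) (_ : NormedAddCommGroup T) (_ : NormedSpace ℝ T) (_ : CompleteSpace T)
    (_ : TopologicalSpace.SeparableSpace T) (S : Submodule ℝ T) (j : S →ₗᵢ[ℝ] q.X),
    IsClosed (S : Set T) ∧ ¬ ∃ g : T →ₗᵢ[ℝ] q.X, ∀ s : S, g s = j s

end Pool.Agent.Q98.HS
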