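import Pool.Agent.Q98.HS.Stm

/-! Project HS, job UNI: the union of a chain of stages. -/

set_option autoImplicit false

namespace Pool.Agent.Q98.HS

open Filter Topology

theorem uni : S_UNI := by
  classical
  intro U _ _ ι _ _ p hp
  have hdir : Directed (· ≤ ·) fun i => (p i).V := by
    intro i j
    exact ⟨max i j, (hp _ _ (le_max_left i j)).V, (hp _ _ (le_max_right i j)).V⟩
  have hV : ∀ x, x ∈ (⨆ i, (p i).V) ↔ ∃ i, x ∈ (p i).V := fun x =>
    Submodule.mem_iSup_of_directed _ hdir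
  -- the values do not depend on the index
  let idx : U → ι := fun x => if h : ∃ i, x ∈ (p i).V then Classical.choose h else Classical.arbitrary ι
  have hidx : ∀ x i, x ∈ (p i).V → x ∈ (p (idx x)).V := by
    intro x i hi
    have h : ∃ i, x ∈ (p i).V := ⟨i, hi⟩
    simp only [idx, dif_pos h]
    exact Classical.choose_spec h
  let gid : Lb U → ι := fun g => if h : ∃ i, g ∈ (p i).G then Classical.choose h else Classical.arbitrary ι
  have hgid : ∀ g i, g ∈ (p i).G → g ∈ (p (gid g)).G := by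
    intro g i hi
    have h : ∃ i, g ∈ (p i).G := ⟨i, hi⟩
    simp only [gid, dif_pos h]
    exact Classical.choose_spec h
  let N : U → ℝ := fun x => (p (idx x)).N x
  have hN : ∀ i, ∀ x ∈ (p i).V, N x = (p i).N x := by
    intro i x hx
    have h1 := hidx x i hx
    rcases le_total i (idx x) with h | h
    · exact (hp _ _ h).N x hx
    · exact ((hp _ _ h).N x h1).symm
  let f : ℕ → U → ℝ := fun n x => (p (idx x)).f n x
  have hf : ∀ n i, ∀ x ∈ (p i).V, f n x = (p i).f n x := by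
    intro n i x hx
    have h1 := hidx x i hx
    rcases le_total i (idx x) with h | h
    · exact (hp _ _ h).f n x hx
    · exact ((hp _ _ h).f n x h1).symm
  let ρ : Lb U → U → U := fun g x => (p (max (gid g) (idx x))).ρ g x
  have hρ : ∀ i, ∀ g ∈ (p i).G, ∀ x ∈ (p i).V, ρ g x = (p i).ρ g x := by
    intro i g hg x hx
    have h1 := hidx x i hx
    have h2 := hgid g i hg
    have h3 : x ∈ (p (max (gid g) (idx x))).V := (hp _ _ (le_max_right _ _)).V h1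
    have h4 : g ∈ (p (max (gid g) (idx x))).G := (hp _ _ (le_max_left _ _)).G h2
    rcases le_total i (max (gid g) (idx x)) with h | h
    · exact (hp _ _ h).ρ g hg x hx
    · exact ((hp _ _ h).ρ g h4 x h3).symm
  have two : ∀ x y : U, (∃ i, x ∈ (p i).V) → (∃ i, y ∈ (p i).V) →
      ∃ i, x ∈ (p i).V ∧ y ∈ (p i).V := by
    rintro x y ⟨i, hi⟩ ⟨j, hj⟩
    exact ⟨max i j, (hp _ _ (le_max_left i j)).V hi, (hp _ _ (le_max_right i j)).V hj⟩
  have gtwo : ∀ (g : Lb U) (x : U), (∃ i, g ∈ (p i).G) → (∃ i, x ∈ (p i).V) →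
      ∃ i, g ∈ (p i).G ∧ x ∈ (p i).V := by
    rintro g x ⟨i, hi⟩ ⟨j, hj⟩
    exact ⟨max i j, (hp _ _ (le_max_left i j)).G hi, (hp _ _ (le_max_right i j)).V hj⟩
  have gthree : ∀ (g : Lb U) (x y : U), (∃ i, g ∈ (p i).G) → (∃ i, x ∈ (p i).V) →
      (∃ i, y ∈ (p i).V) → ∃ i, g ∈ (p i).G ∧ x ∈ (p i).V ∧ y ∈ (p i).V := by
    intro g x y h1 h2 h3
    obtain ⟨i, hi1, hi2⟩ := gtwo g x h1 h2
    obtain ⟨j, hj⟩ := h3
    exact ⟨max i j, (hp _ _ (le_max_left i j)).G hi1, (hp _ _ (le_max_left i j)).V hi2,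
      (hp _ _ (le_max_right i j)).V hj⟩
  refine ⟨⟨⨆ i, (p i).V, N, f, {g | ∃ i, g ∈ (p i).G}, ρ, ?_, ?_, ?_, ?_, ?_, ?_, ?_, ?_, ?_, ?_,
    ?_, ?_, ?_⟩, hV, ?_, fun g => Iff.rfl⟩
  · intro x hx h
    obtain ⟨i, hi⟩ := (hV x).mp hx
    rw [hN i x hi] at h
    exact (p i).N_zero x hi h
  · intro x hx y hy
    obtain ⟨i, hi, hj⟩ := two x y ((hV x).mp hx) ((hV y).mp hy)
    rw [hN i x hi, hN i y hj, hN i _ ((p i).V.add_mem hi hj)]
    exact (p i).N_add x hi y hj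
  · intro a x hx
    obtain ⟨i, hi⟩ := (hV x).mp hx
    rw [hN i x hi, hN i _ ((p i).V.smul_mem a hi)]
    exact (p i).N_smul a x hi
  · intro n x hx y hy
    obtain ⟨i, hi, hj⟩ := two x y ((hV x).mp hx) ((hV y).mp hy)
    rw [hf n i x hi, hf n i y hj, hf n i _ ((p i).V.add_mem hi hj)]
    exact (p i).f_add n x hi y hj
  · intro n a x hx
    obtain ⟨i, hi⟩ := (hV x).mp hx
    rw [hf n i x hi, hf n i _ ((p i).V.smul_mem a hi)]
    exact (p i).f_smul n a x hi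
  · intro n x hx
    obtain ⟨i, hi⟩ := (hV x).mp hx
    rw [hf n i x hi, hN i x hi]
    exact (p i).f_le n x hi
  · intro x hx
    obtain ⟨i, hi⟩ := (hV x).mp hx
    have h1 : (fun n => f n x) = fun n => (p i).f n x := funext fun n => hf n i x hi
    rw [h1]
    exact (p i).f_lim x hi
  · intro g hg x hx
    obtain ⟨i, h1, h2⟩ := gtwo g x hg ((hV x).mp hx)
    rw [hρ i g h1 x h2]
    exact (hV _).mpr ⟨i, (p i).ρ_mem g h1 x h2⟩
  · intro g hg x hx y hy
    obtain ⟨i, h1, h2, h3⟩ := gthree g x y hg ((hV x).mp hx) ((hV y).mp hy)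
    rw [hρ i g h1 x h2, hρ i g h1 y h3, hρ i g h1 _ ((p i).V.add_mem h2 h3)]
    exact (p i).ρ_add g h1 x h2 y h3
  · intro g hg a x hx
    obtain ⟨i, h1, h2⟩ := gtwo g x hg ((hV x).mp hx)
    rw [hρ i g h1 x h2, hρ i g h1 _ ((p i).V.smul_mem a h2)]
    exact (p i).ρ_smul g h1 a x h2
  · intro g hg x hx
    obtain ⟨i, h1, h2⟩ := gtwo g x hg ((hV x).mp hx)
    rw [hρ i g h1 x h2, hN i x h2, hN i _ ((p i).ρ_mem g h1 x h2)]
    exact (p i).ρ_N g h1 x h2
  · intro g hg y hy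
    obtain ⟨i, h1, h2⟩ := gtwo g y hg ((hV y).mp hy)
    obtain ⟨x, hx, hxy⟩ := (p i).ρ_surj g h1 y h2
    exact ⟨x, (hV x).mpr ⟨i, hx⟩, by rw [hρ i g h1 x hx, hxy]⟩
  · rintro g ⟨i, hi⟩ k
    obtain ⟨h1, h2, h3⟩ := (p i).G_V g hi k
    refine ⟨(hV _).mpr ⟨i, h1⟩, (hV _).mpr ⟨i, h2⟩, ?_⟩
    rw [hρ i g hi _ h1]
    exact h3
  · intro i
    exact ⟨le_iSup (fun i => (p i).V) i, fun x hx => hN i x hx, fun n x hx => hf n i x hx,
      fun g hg => ⟨i, hg⟩, fun g hg x hx => hρ i g hg x hx⟩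

end Pool.Agent.Q98.HS
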